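import Pool.Agent.R613.WM.W7

set_option autoImplicit false

/-! # The log-averaged variance over windows proportional to `x` -/

namespace Pool.Agent.R613.WM

open MeasureTheory Filter Topology Set
open Pool.Agent.W120.WM (ZC NT)
open H353.FB (mu Mx)
open Pool.Agent.R305.FM (Ad fC fC_ad Ad.sub Ad.int_sq subst_exp)

/-- the block function -/
noncomputable def gB (L : ℝ) : ℝ → ℂ := om (Real.exp (-(1 / 2) * L)) L fC

lemma good_B {L : ℝ} (hL : 0 < L) : Good (gB L) (mB L) := by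
  have h := Good.base.om (r := Real.exp (-(1 / 2) * L)) (Real.exp_pos _).le (by
    rw [Real.exp_lt_one_iff]
    linarith) hL
  have e : (fun ρ => omm (Real.exp (-(1 / 2) * L)) L ρ * (fun _ : ℂ => (1:ℂ)) ρ) = mB L := by
    funext ρ
    simp only [mul_one]
    exact omm_mB L ρ
  rw [e] at h
  exact h

/-- `∫_1^x ((M(u) - M(e^{-L}u))/u)² du` -/
noncomputable def IB (L x : ℝ) : ℝ := ∫ u in (1:ℝ)..x, ((Mx u - Mx (Real.exp (-L) * u)) / u) ^ 2

lemma IB_eq (L : ℝ) {x : ℝ} (hx : 1 ≤ x) : IB L x = IQ (gB L) (Real.log x) := by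
  refine int_IQ (F := fun u => (Mx u - Mx (Real.exp (-L) * u)) / u) (fun v _ => ?_) hx
  have h1 : Real.exp (-L) * Real.exp v = Real.exp (v - L) := by
    rw [← Real.exp_add]
    congr 1
    ring
  have h2 : gB L v = (((Ms mu v - Ms mu (v - L)) * Real.exp (-(1 / 2) * v) : ℝ) : ℂ) := by
    unfold gB
    rw [fC_eq, ← gf_block]
  rw [h2, Complex.norm_real, Real.norm_eq_abs, sq_abs, h1]
  have h3 : Mx (Real.exp v) = Ms mu v := rfl
  have h4 : Mx (Real.exp (v - L)) = Ms mu (v - L) := rfl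
  rw [h3, h4, div_pow, mul_pow, ← Real.exp_nat_mul, ← Real.exp_nat_mul]
  have h5 : Real.exp (((2:ℕ) : ℝ) * (-(1 / 2) * v)) = Real.exp v / Real.exp (((2:ℕ) : ℝ) * v) := by
    rw [← Real.exp_sub]
    congr 1
    push_cast
    ring
  rw [h5]
  ring

lemma IB_law {L : ℝ} (hL : 0 < L) : LawI (IB L) (SM (mB L)) ∧
    (ZC → Summable (fun ρ : NT => ‖mB L ρ‖ ^ 2 / ‖(ρ : ℂ) * deriv riemannZeta ρ‖ ^ 2) ∧ 0 < SM (mB L)) :=
  law_good (good_B hL) fun _ hx => IB_eq L hx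

/-- the Möbius sum over the window of length `δ x` centred at `x` -/
noncomputable def Wn (δ x : ℝ) : ℝ :=
  ∑ n ∈ (Finset.range (⌈x + δ * x⌉₊ + 1)).filter (fun n : ℕ => |(n : ℝ) - x| < δ * x / 2), mu n

lemma Wn_eq {δ x : ℝ} (hδ : 0 < δ) (hδ1 : δ ≤ 1) (hx : 1 ≤ x) (hc : ∀ n : ℕ, (1 + δ / 2) * x ≠ n) :
    Wn δ x = Mx ((1 + δ / 2) * x) - Mx ((1 - δ / 2) * x) := by
  have hx0 : 0 < x := by linarith
  have hδx : 0 < δ * x := by positivity
  have hle : ⌊(1 - δ / 2) * x⌋₊ ≤ ⌊(1 + δ / 2) * x⌋₊ := Nat.floor_le_floor (by nlinarith)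
  have h1 : Mx ((1 + δ / 2) * x) - Mx ((1 - δ / 2) * x) =
      ∑ n ∈ Finset.Icc 1 ⌊(1 + δ / 2) * x⌋₊ \ Finset.Icc 1 ⌊(1 - δ / 2) * x⌋₊, mu n := by
    unfold H353.FB.Mx
    rw [eq_comm, ← Finset.sum_sdiff (Finset.Icc_subset_Icc_right hle)]
    ring
  rw [h1]
  unfold Wn
  apply Finset.sum_congr _ fun _ _ => rfl
  ext n
  have hlow : 0 ≤ (1 - δ / 2) * x := by nlinarith
  have hup : 0 ≤ (1 + δ / 2) * x := by nlinarith
  simp only [Finset.mem_filter, Finset.mem_range, Finset.mem_sdiff, Finset.mem_Icc]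
  rw [Nat.le_floor_iff hup, Nat.le_floor_iff hlow, abs_lt]
  constructor
  · rintro ⟨_, h2, h3⟩
    have h4 : (1 - δ / 2) * x < n := by linarith
    have h5 : (0:ℝ) < n := by linarith
    refine ⟨⟨by exact_mod_cast h5, by linarith⟩, fun h6 => by linarith [h6.2]⟩
  · rintro ⟨⟨h2, h3⟩, h4⟩
    have h5 : (1 - δ / 2) * x < n := by
      by_contra h6
      exact h4 ⟨h2, not_lt.1 h6⟩
    have h6 : (n : ℝ) < (1 + δ / 2) * x := lt_of_le_of_ne h3 (fun h => hc n h.symm)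
    refine ⟨?_, by linarith, by linarith⟩
    have h7 : (n : ℝ) < x + δ * x := by linarith
    have h8 := Nat.le_ceil (x + δ * x)
    have h9 : (n : ℝ) < ⌈x + δ * x⌉₊ := by linarith
    have h10 : n < ⌈x + δ * x⌉₊ := by exact_mod_cast h9
    omega

/-- the log-averaged normalised variance, times `log Y` -/
noncomputable def KV (δ Y : ℝ) : ℝ := ∫ x in (1:ℝ)..Y, Wn δ x ^ 2 / (δ * x ^ 2)

/-- the logarithm of the ratio of the endpoints -/
noncomputable def lr (δ : ℝ) : ℝ := Real.log ((1 + δ / 2) / (1 - δ / 2))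

lemma lr_pos {δ : ℝ} (hδ : 0 < δ) (hδ1 : δ ≤ 1) : 0 < lr δ := by
  unfold lr
  apply Real.log_pos
  rw [lt_div_iff₀ (by linarith)]
  linarith

lemma lr_le {δ : ℝ} (hδ : 0 < δ) (hδ1 : δ ≤ 1) : lr δ ≤ 2 * δ := by
  unfold lr
  have h0 : 0 < 1 - δ / 2 := by linarith
  have h1 : 0 < (1 + δ / 2) / (1 - δ / 2) := by positivity
  refine (Real.log_le_sub_one_of_pos h1).trans ?_
  have h2 : (1 + δ / 2) / (1 - δ / 2) - 1 = δ / (1 - δ / 2) := by
    rw [div_sub_one h0.ne']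
    congr 1
    ring
  rw [h2, div_le_iff₀ h0]
  nlinarith

lemma exp_lr {δ : ℝ} (hδ : 0 < δ) (hδ1 : δ ≤ 1) : Real.exp (-lr δ) = (1 - δ / 2) / (1 + δ / 2) := by
  unfold lr
  have h0 : 0 < 1 - δ / 2 := by linarith
  have h1 : 0 < (1 + δ / 2) / (1 - δ / 2) := by positivity
  rw [Real.exp_neg, Real.exp_log h1, inv_div]

lemma KV_eq {δ : ℝ} (hδ : 0 < δ) (hδ1 : δ ≤ 1) {Y : ℝ} (hY : 1 ≤ Y) :
    KV δ Y = (1 + δ / 2) / δ * (IB (lr δ) ((1 + δ / 2) * Y) - IB (lr δ) (1 + δ / 2)) := by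
  obtain ⟨c, hc⟩ : ∃ c : ℝ, c = 1 + δ / 2 := ⟨_, rfl⟩
  have hc1 : 1 ≤ c := by linarith
  have hc0 : 0 < c := by linarith
  obtain ⟨f, hf⟩ : ∃ f : ℝ → ℝ, f = fun u => ((Mx u - Mx (Real.exp (-lr δ) * u)) / u) ^ 2 := ⟨_, rfl⟩
  have h1 : KV δ Y = ∫ x in (1:ℝ)..Y, (c ^ 2 / δ) * f (c * x) := by
    unfold KV
    rw [intervalIntegral.integral_of_le hY, intervalIntegral.integral_of_le hY]
    apply setIntegral_congr_ae measurableSet_Ioc
    have hnull : ∀ᵐ x : ℝ, x ∉ (Set.range fun n : ℕ => (n : ℝ) / c) :=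
      (Set.countable_range _).ae_notMem _
    filter_upwards [hnull] with x hx hxm
    have hx1 : 1 ≤ x := hxm.1.le
    have hx0 : 0 < x := by linarith
    have hne : ∀ n : ℕ, (1 + δ / 2) * x ≠ n := by
      intro n hn
      apply hx
      refine ⟨n, ?_⟩
      simp only
      rw [← hn, ← hc]
      field_simp
    rw [Wn_eq hδ hδ1 hx1 hne, hf]
    simp only
    rw [exp_lr hδ hδ1, ← hc]
    have h2 : (1 - δ / 2) / c * (c * x) = (1 - δ / 2) * x := by
      field_simp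
    rw [h2]
    field_simp
  rw [h1, intervalIntegral.integral_const_mul, intervalIntegral.integral_comp_mul_left f hc0.ne', mul_one,
    smul_eq_mul]
  have hint : ∀ a b : ℝ, 1 ≤ a → a ≤ b → IntervalIntegrable f volume a b := by
    intro a b ha hab
    have hm : Measurable f := by
      rw [hf]
      have hMx : Measurable Mx := by
        have e : Mx = (fun n : ℕ => ∑ k ∈ Finset.Icc 1 n, mu k) ∘ fun y : ℝ => ⌊y⌋₊ := rfl
        rw [e]
        exact (measurable_of_countable _).comp Nat.measurable_floor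
      exact ((hMx.sub (hMx.comp (measurable_const_mul _))).div measurable_id).pow_const 2
    rw [intervalIntegrable_iff_integrableOn_Ioc_of_le hab]
    refine Integrable.mono' (g := fun _ => (2 * b) ^ 2) (integrableOn_const (by simp)) hm.aestronglyMeasurable ?_
    refine (ae_restrict_mem measurableSet_Ioc).mono fun u hu => ?_
    have hu1 : 1 ≤ u := ha.trans hu.1.le
    have ht : Real.exp (-lr δ) ≤ 1 := by
      rw [Real.exp_le_one_iff]
      linarith [lr_pos hδ hδ1]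
    have ht0 := Real.exp_pos (-lr δ)
    rw [hf]
    simp only
    rw [Real.norm_of_nonneg (by positivity), div_pow]
    have h2 : |Mx u - Mx (Real.exp (-lr δ) * u)| ≤ 2 * b := by
      have h3 := H353.FB.abs_Mx_le (y := u) (by linarith)
      have h4 := H353.FB.abs_Mx_le (y := Real.exp (-lr δ) * u) (by positivity)
      have h5 : Real.exp (-lr δ) * u ≤ u := by nlinarith
      refine (abs_sub _ _).trans ?_
      linarith [hu.2]
    rw [div_le_iff₀ (by positivity), ← sq_abs]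
    have h6 : (1:ℝ) ≤ u ^ 2 := by nlinarith
    have h7 : |Mx u - Mx (Real.exp (-lr δ) * u)| ^ 2 ≤ (2 * b) ^ 2 := by gcongr
    nlinarith [sq_nonneg (2 * b)]
  have h3 : IB (lr δ) (c * Y) - IB (lr δ) c = ∫ u in c..(c * Y), f u := by
    unfold IB
    rw [← hf, ← intervalIntegral.integral_add_adjacent_intervals (hint 1 c le_rfl hc1)
      (hint c (c * Y) hc1 (by nlinarith))]
    ring
  rw [← hc, h3]
  field_simp

lemma KV_lim {δ : ℝ} (hδ : 0 < δ) (hδ1 : δ ≤ 1) (hZ : ZC) :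
    Tendsto (fun Y : ℝ => KV δ Y / Real.log Y) atTop (𝓝 ((1 + δ / 2) / δ * SM (mB (lr δ)))) := by
  obtain ⟨c, hc⟩ : ∃ c : ℝ, c = 1 + δ / 2 := ⟨_, rfl⟩
  have hc1 : 1 < c := by linarith
  have hc0 : 0 < c := by linarith
  have hlaw := (IB_law (lr_pos hδ hδ1)).1.2.2.1 hZ
  have hcY : Tendsto (fun Y : ℝ => c * Y) atTop atTop := tendsto_id.const_mul_atTop hc0
  have h1 := hlaw.comp hcY
  have h2 : Tendsto (fun Y : ℝ => Real.log (c * Y) / Real.log Y) atTop (𝓝 1) := by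
    have h3 : Tendsto (fun Y : ℝ => Real.log c / Real.log Y + 1) atTop (𝓝 (0 + 1)) :=
      (Real.tendsto_log_atTop.const_div_atTop (Real.log c)).add_const 1
    rw [zero_add] at h3
    refine h3.congr' ?_
    filter_upwards [eventually_gt_atTop (1:ℝ)] with Y hY
    have : Real.log Y ≠ 0 := (Real.log_pos hY).ne'
    rw [Real.log_mul hc0.ne' (by linarith)]
    field_simp
  have h4 := (((h1.mul h2).sub (Real.tendsto_log_atTop.const_div_atTop (IB (lr δ) c))).const_mul (c / δ))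
  rw [mul_one, sub_zero] at h4
  rw [← hc]
  refine h4.congr' ?_
  filter_upwards [eventually_gt_atTop (1:ℝ)] with Y hY
  have hl : Real.log Y ≠ 0 := (Real.log_pos hY).ne'
  have hl2 : Real.log (c * Y) ≠ 0 := (Real.log_pos (by nlinarith)).ne'
  rw [KV_eq hδ hδ1 hY.le, ← hc]
  simp only [Function.comp]
  field_simp

lemma KV_top {δ : ℝ} (hδ : 0 < δ) (hδ1 : δ ≤ 1) (hZ : ¬ ZC) :
    Tendsto (fun Y : ℝ => KV δ Y / Real.log Y) atTop atTop := by
  obtain ⟨c, hc⟩ : ∃ c : ℝ, c = 1 + δ / 2 := ⟨_, rfl⟩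
  have hc1 : 1 < c := by linarith
  have hc0 : 0 < c := by linarith
  have hlaw := (IB_law (lr_pos hδ hδ1)).1.2.2.2 hZ
  have hcY : Tendsto (fun Y : ℝ => c * Y) atTop atTop := tendsto_id.const_mul_atTop hc0
  have h1 := hlaw.comp hcY
  have h4 := h1.atTop_add ((Real.tendsto_log_atTop.const_div_atTop (IB (lr δ) c)).neg)
  have h5 := h4.const_mul_atTop (show 0 < c / δ by positivity)
  refine tendsto_atTop_mono' atTop ?_ h5
  filter_upwards [eventually_gt_atTop (1:ℝ)] with Y hY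
  have hl : 0 < Real.log Y := Real.log_pos hY
  have hl2 : Real.log Y ≤ Real.log (c * Y) := Real.log_le_log (by linarith) (by nlinarith)
  rw [KV_eq hδ hδ1 hY.le, ← hc]
  simp only [Function.comp]
  have hI0 : 0 ≤ IB (lr δ) (c * Y) := by
    rw [IB_eq _ (by nlinarith)]
    exact IQ_nonneg _ (by linarith)
  have h6 : IB (lr δ) (c * Y) / Real.log (c * Y) ≤ IB (lr δ) (c * Y) / Real.log Y := by gcongr
  have h7 : c / δ * (IB (lr δ) (c * Y) - IB (lr δ) c) / Real.log Y =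
      c / δ * (IB (lr δ) (c * Y) / Real.log Y + -(IB (lr δ) c / Real.log Y)) := by
    field_simp
    ring
  rw [h7]
  gcongr

theorem main_iff :
    ((∃ C : ℝ, ∀ δ : ℝ, 0 < δ → δ ≤ 1 → ∀ᶠ Y : ℝ in atTop, KV δ Y ≤ C * Real.log Y) ↔ GH) ∧
    ((∃ C : ℝ, ∀ δ : ℝ, 0 < δ → δ ≤ 1 → ∃ᶠ Y : ℝ in atTop, KV δ Y ≤ C * Real.log Y) ↔ GH) := by
  have a1 : (∃ C : ℝ, ∀ δ : ℝ, 0 < δ → δ ≤ 1 → ∀ᶠ Y : ℝ in atTop, KV δ Y ≤ C * Real.log Y) →
      ∃ C : ℝ, ∀ δ : ℝ, 0 < δ → δ ≤ 1 → ∃ᶠ Y : ℝ in atTop, KV δ Y ≤ C * Real.log Y := by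
    rintro ⟨C, hC⟩
    exact ⟨C, fun δ h1 h2 => (hC δ h1 h2).frequently⟩
  have a2 : (∃ C : ℝ, ∀ δ : ℝ, 0 < δ → δ ≤ 1 → ∃ᶠ Y : ℝ in atTop, KV δ Y ≤ C * Real.log Y) → GH := by
    rintro ⟨C, hC⟩
    have hZ : ZC := by
      by_contra hZ
      have h1 := (KV_top one_pos le_rfl hZ).eventually (eventually_gt_atTop C)
      obtain ⟨Y, h2, h3, h4⟩ := ((hC 1 one_pos le_rfl).and_eventually (h1.and (eventually_gt_atTop (1:ℝ)))).exists
      have : 0 < Real.log Y := Real.log_pos h4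
      rw [lt_div_iff₀ this] at h3
      linarith
    have hb : ∀ δ : ℝ, 0 < δ → δ ≤ 1 → (1 + δ / 2) / δ * SM (mB (lr δ)) ≤ C := by
      intro δ h1 h2
      by_contra hlt
      push Not at hlt
      have h3 := (KV_lim h1 h2 hZ).eventually (lt_mem_nhds hlt)
      obtain ⟨Y, h4, h5, h6⟩ := ((hC δ h1 h2).and_eventually (h3.and (eventually_gt_atTop (1:ℝ)))).exists
      have : 0 < Real.log Y := Real.log_pos h6
      rw [lt_div_iff₀ this] at h5
      linarith
    have hC0 : 0 ≤ C := by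
      have h1 := hb 1 one_pos le_rfl
      have h2 := ((IB_law (lr_pos one_pos le_rfl)).2 hZ).2
      have h3 : 0 ≤ (1 + (1:ℝ) / 2) / 1 * SM (mB (lr 1)) := by positivity
      linarith
    refine SM_GH hZ (fun L hL => ((IB_law hL).2 hZ).1) (C := 2 * C) (by positivity) fun L hL hL2 => ?_
    -- choose `δ` with `lr δ = L`
    obtain ⟨t, ht⟩ : ∃ t : ℝ, t = Real.exp (-L) := ⟨_, rfl⟩
    have ht0 : 0 < t := by rw [ht]; exact Real.exp_pos _
    have ht1 : t < 1 := by rw [ht, Real.exp_lt_one_iff]; linarith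
    have htL : 1 - t ≤ L := by
      have := Real.add_one_le_exp (-L)
      rw [← ht] at this
      linarith
    obtain ⟨δ, hδ⟩ : ∃ δ : ℝ, δ = 2 * (1 - t) / (1 + t) := ⟨_, rfl⟩
    have hδ0 : 0 < δ := by
      rw [hδ]
      have : 0 < 1 - t := by linarith
      positivity
    have hδL : δ ≤ 2 * L := by
      rw [hδ, div_le_iff₀ (by linarith)]
      nlinarith
    have hlr : lr δ = L := by
      unfold lr
      have h1 : (1 + δ / 2) / (1 - δ / 2) = 1 / t := by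
        rw [hδ]
        have h2 : 1 + 2 * (1 - t) / (1 + t) / 2 = 2 / (1 + t) := by
          field_simp
          ring
        have h3 : 1 - 2 * (1 - t) / (1 + t) / 2 = 2 * t / (1 + t) := by
          field_simp
          ring
        rw [h2, h3]
        field_simp
      rw [h1, one_div, Real.log_inv, ht, Real.log_exp, neg_neg]
    have h1 := hb δ hδ0 (by linarith)
    rw [hlr] at h1
    have hS0 : 0 ≤ SM (mB L) := tsum_nonneg fun ρ => by positivity
    have h2 : 1 / δ * SM (mB L) ≤ C := by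
      refine le_trans ?_ h1
      gcongr
      linarith
    rw [one_div_mul_eq_div, div_le_iff₀ hδ0] at h2
    nlinarith
  have a3 : GH → ∃ C : ℝ, ∀ δ : ℝ, 0 < δ → δ ≤ 1 → ∀ᶠ Y : ℝ in atTop, KV δ Y ≤ C * Real.log Y := by
    intro h
    have hZ := GH_ZC h
    obtain ⟨C, hC0, hC⟩ := GH_SM h
    refine ⟨3 * C + 1, fun δ hδ hδ1 => ?_⟩
    have h1 := hC (lr δ) (lr_pos hδ hδ1) ((lr_le hδ hδ1).trans (by linarith))
    have h2 : (1 + δ / 2) / δ * SM (mB (lr δ)) ≤ 3 * C := by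
      have h3 : SM (mB (lr δ)) ≤ C * (2 * δ) := h1.trans (by gcongr; exact lr_le hδ hδ1)
      calc (1 + δ / 2) / δ * SM (mB (lr δ)) ≤ (1 + δ / 2) / δ * (C * (2 * δ)) := by gcongr
        _ = (1 + δ / 2) * (2 * C) := by field_simp
        _ ≤ 3 * C := by nlinarith
    have h3 := (KV_lim hδ hδ1 hZ).eventually (gt_mem_nhds (show (1 + δ / 2) / δ * SM (mB (lr δ)) < 3 * C + 1 by
      linarith))
    filter_upwards [h3, eventually_gt_atTop (1:ℝ)] with Y h4 h5
    have : 0 < Real.log Y := Real.log_pos h5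
    rw [div_lt_iff₀ this] at h4
    exact h4.le
  exact ⟨⟨fun h => a2 (a1 h), a3⟩, ⟨a2, fun h => a1 (a3 h)⟩⟩

end Pool.Agent.R613.WM
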