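import Pool.Agent.R305.FM.F3

set_option autoImplicit false

/-! # Operators acting on `M(e^v) e^{-v/2}`: the mean square -/

namespace Pool.Agent.R613.WM

open MeasureTheory Filter Topology Set
open Pool.Agent.H295R2 (ww ee GR)
open Pool.Agent.W120.WM (ZC NT)
open Pool.Agent.TH223.AP (GR_lim dist_lim' SS ww_sq ft mn)
open Pool.Agent.R305.FM (Ad fC fC_ad norm_ee ee_cont mn_trig PZ PZ_ad cesaro Ad.sub Ad.int_sq)

/-- `e^{(ρ - 1/2) v}`, cut off at `0` -/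
noncomputable def E (ρ : ℂ) (v : ℝ) : ℂ := if v < 0 then 0 else ee ρ v

lemma E_ad {ρ : ℂ} (h : ρ.re = 1 / 2) : Ad (E ρ) := by
  refine ⟨?_, ?_, ?_⟩
  · exact Measurable.ite measurableSet_Iio measurable_const (ee_cont ρ).measurable
  · intro v hv
    unfold E
    rw [if_pos hv]
  · intro V
    refine ⟨1, zero_le_one, fun v _ => ?_⟩
    unfold E
    split_ifs with h
    · rw [norm_zero]
      exact zero_le_one
    · rw [norm_ee (by assumption)]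

lemma Ad.smul {F : ℝ → ℂ} (hF : Ad F) (c : ℂ) : Ad (fun v => c * F v) := by
  refine ⟨hF.meas.const_mul c, fun v hv => by rw [hF.neg v hv, mul_zero], fun V => ?_⟩
  obtain ⟨B, hB0, hB⟩ := hF.bdd V
  exact ⟨‖c‖ * B, by positivity, fun v hv => by
    rw [norm_mul]
    exact mul_le_mul_of_nonneg_left (hB v hv) (norm_nonneg _)⟩

lemma Ad.add {F G : ℝ → ℂ} (hF : Ad F) (hG : Ad G) : Ad (fun v => F v + G v) := by
  refine ⟨hF.meas.add hG.meas, fun v hv => by rw [hF.neg v hv, hG.neg v hv, add_zero], fun V => ?_⟩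
  obtain ⟨B, hB0, hB⟩ := hF.bdd V
  obtain ⟨C, hC0, hC⟩ := hG.bdd V
  exact ⟨B + C, by positivity, fun v hv => (norm_add_le _ _).trans (add_le_add (hB v hv) (hC v hv))⟩

lemma Ad.zero : Ad (fun _ => 0) :=
  ⟨measurable_const, fun _ _ => rfl, fun _ => ⟨0, le_rfl, fun _ _ => by simp⟩⟩

/-- the mean square over `[0, V]`, not normalised -/
noncomputable def IQ (F : ℝ → ℂ) (V : ℝ) : ℝ := ∫ v in (0:ℝ)..V, ‖F v‖ ^ 2

lemma IQ_nonneg (F : ℝ → ℂ) {V : ℝ} (hV : 0 ≤ V) : 0 ≤ IQ F V :=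
  intervalIntegral.integral_nonneg hV fun v _ => by positivity

lemma IQ_add {F G : ℝ → ℂ} (hF : Ad F) (hG : Ad G) {V : ℝ} (hV : 0 ≤ V) :
    IQ (fun v => F v + G v) V ≤ 2 * IQ F V + 2 * IQ G V := by
  unfold IQ
  rw [← intervalIntegral.integral_const_mul, ← intervalIntegral.integral_const_mul,
    ← intervalIntegral.integral_add ((hF.int_sq 0 V).const_mul 2) ((hG.int_sq 0 V).const_mul 2)]
  refine intervalIntegral.integral_mono_on hV ((Ad.add hF hG).int_sq 0 V)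
    (((hF.int_sq 0 V).const_mul 2).add ((hG.int_sq 0 V).const_mul 2)) fun v _ => ?_
  have h1 := norm_add_le (F v) (G v)
  have h2 := norm_nonneg (F v + G v)
  calc ‖F v + G v‖ ^ 2 ≤ (‖F v‖ + ‖G v‖) ^ 2 := by gcongr
    _ ≤ _ := by nlinarith [sq_nonneg (‖F v‖ - ‖G v‖)]

lemma IQ_smul (c : ℂ) (F : ℝ → ℂ) (V : ℝ) : IQ (fun v => c * F v) V = ‖c‖ ^ 2 * IQ F V := by
  unfold IQ
  rw [← intervalIntegral.integral_const_mul]
  apply intervalIntegral.integral_congr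
  intro v _
  simp only
  rw [norm_mul, mul_pow]

lemma IQ_sub {F G : ℝ → ℂ} (hF : Ad F) (hG : Ad G) {V : ℝ} (hV : 0 ≤ V) :
    IQ (fun v => F v - G v) V ≤ 2 * IQ F V + 2 * IQ G V := by
  have h := IQ_add hF (Ad.smul hG (-1)) hV
  rw [IQ_smul] at h
  simpa [sub_eq_add_neg] using h

/-- mean square `0` -/
def Z0 (F : ℝ → ℂ) : Prop := Tendsto (fun V : ℝ => IQ F V / V) atTop (𝓝 0)

lemma Z0.of_le {F G : ℝ → ℂ} {K : ℝ} (hG : Z0 G) (h : ∀ V : ℝ, 0 ≤ V → IQ F V ≤ K * IQ G V) : Z0 F := by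
  unfold Z0 at hG ⊢
  have h1 := hG.const_mul K
  rw [mul_zero] at h1
  refine squeeze_zero' ?_ ?_ h1
  · filter_upwards [eventually_ge_atTop (0:ℝ)] with V hV
    exact div_nonneg (IQ_nonneg F hV) hV
  · filter_upwards [eventually_ge_atTop (0:ℝ)] with V hV
    rw [mul_div]
    exact div_le_div_of_nonneg_right (h V hV) hV

lemma Z0.add {F G : ℝ → ℂ} (hF : Ad F) (hG : Ad G) (h1 : Z0 F) (h2 : Z0 G) : Z0 (fun v => F v + G v) := by
  unfold Z0 at h1 h2 ⊢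
  have h3 := (h1.const_mul 2).add (h2.const_mul 2)
  rw [mul_zero, add_zero] at h3
  refine squeeze_zero' ?_ ?_ h3
  · filter_upwards [eventually_ge_atTop (0:ℝ)] with V hV
    exact div_nonneg (IQ_nonneg _ hV) hV
  · filter_upwards [eventually_ge_atTop (0:ℝ)] with V hV
    have := IQ_add hF hG hV
    calc IQ (fun v => F v + G v) V / V ≤ (2 * IQ F V + 2 * IQ G V) / V := by gcongr
      _ = _ := by ring

lemma Z0.smul {F : ℝ → ℂ} (c : ℂ) (h1 : Z0 F) : Z0 (fun v => c * F v) :=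
  Z0.of_le (K := ‖c‖ ^ 2) h1 fun V _ => le_of_eq (IQ_smul c F V)

lemma Z0.zero : Z0 (fun _ => 0) := by
  unfold Z0 IQ
  simp

/-- a function that tends to `0` has mean square `0` -/
lemma Z0.of_tendsto {F : ℝ → ℂ} (hF : Ad F) (h : Tendsto F atTop (𝓝 0)) : Z0 F := by
  unfold Z0 IQ
  refine cesaro (g := fun v => ‖F v‖ ^ 2) (fun v => by positivity) (fun a b => hF.int_sq a b) ?_
  have := (tendsto_zero_iff_norm_tendsto_zero.1 h).pow 2
  simpa using this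

/-- a linear operator on `Ad`, bounded in mean square, acting on the exponentials by a multiplier -/
structure Op (T : (ℝ → ℂ) → ℝ → ℂ) (m : ℂ → ℂ) : Prop where
  ad : ∀ F, Ad F → Ad (T F)
  add : ∀ F G, Ad F → Ad G → T (fun v => F v + G v) = fun v => T F v + T G v
  smul : ∀ F, Ad F → ∀ c : ℂ, T (fun v => c * F v) = fun v => c * T F v
  bd : ∃ K : ℝ, 0 ≤ K ∧ ∀ F, Ad F → ∀ V : ℝ, 0 ≤ V → IQ (T F) V ≤ K * IQ F V
  ev : ∀ ρ : ℂ, ρ.re = 1 / 2 → Z0 (fun v => T (E ρ) v - m ρ * E ρ v)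
  mb : ∃ B : ℝ, ∀ ρ : ℂ, ρ.re = 1 / 2 → ‖m ρ‖ ≤ B

namespace Op

variable {T T' : (ℝ → ℂ) → ℝ → ℂ} {m m' : ℂ → ℂ}

lemma sub (h : Op T m) {F G : ℝ → ℂ} (hF : Ad F) (hG : Ad G) :
    T (fun v => F v - G v) = fun v => T F v - T G v := by
  have h1 : (fun v => F v - G v) = fun v => F v + (-1) * G v := by
    funext v; ring
  rw [h1, h.add F _ hF (Ad.smul hG (-1)), h.smul G hG]
  funext v
  ring

lemma zero (h : Op T m) : T (fun _ => 0) = fun _ => 0 := by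
  have h1 := h.smul (fun _ => 0) Ad.zero 0
  simp only [zero_mul] at h1
  exact h1

lemma Z0 (h : Op T m) {F : ℝ → ℂ} (hF : Ad F) (h0 : Z0 F) : Z0 (T F) := by
  obtain ⟨K, _, hK⟩ := h.bd
  exact Pool.Agent.R613.WM.Z0.of_le h0 (hK F hF)

/-- composition -/
lemma comp (h : Op T m) (h' : Op T' m') : Op (fun F => T (T' F)) (fun ρ => m ρ * m' ρ) := by
  refine ⟨fun F hF => h.ad _ (h'.ad _ hF), fun F G hF hG => ?_, fun F hF c => ?_, ?_, fun ρ hρ => ?_, ?_⟩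
  · rw [h'.add F G hF hG, h.add _ _ (h'.ad F hF) (h'.ad G hG)]
  · rw [h'.smul F hF c, h.smul _ (h'.ad F hF) c]
  · obtain ⟨K, hK0, hK⟩ := h.bd
    obtain ⟨K', hK'0, hK'⟩ := h'.bd
    refine ⟨K * K', by positivity, fun F hF V hV => ?_⟩
    calc IQ (T (T' F)) V ≤ K * IQ (T' F) V := hK _ (h'.ad F hF) V hV
      _ ≤ K * (K' * IQ F V) := by
        gcongr
        exact hK' F hF V hV
      _ = _ := by ring
  · have hE := E_ad hρ
    have hD : Ad (fun v => T' (E ρ) v - m' ρ * E ρ v) := (h'.ad _ hE).sub (Ad.smul hE _)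
    have e1 : (fun v => T (T' (E ρ)) v - m ρ * m' ρ * E ρ v) =
        fun v => T (fun v => T' (E ρ) v - m' ρ * E ρ v) v + m' ρ * (T (E ρ) v - m ρ * E ρ v) := by
      rw [h.sub (h'.ad _ hE) (Ad.smul hE _), h.smul _ hE]
      funext v
      ring
    rw [e1]
    exact (h.Z0 hD (h'.ev ρ hρ)).add (h.ad _ hD) (Ad.smul ((h.ad _ hE).sub (Ad.smul hE _)) _)
      ((h.ev ρ hρ).smul _)
  · obtain ⟨B, hB⟩ := h.mb
    obtain ⟨B', hB'⟩ := h'.mb
    refine ⟨B * B', fun ρ hρ => ?_⟩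
    rw [norm_mul]
    exact mul_le_mul (hB ρ hρ) (hB' ρ hρ) (norm_nonneg _) ((norm_nonneg _).trans (hB ρ hρ))

/-- linear combination -/
lemma lin (h : Op T m) (h' : Op T' m') (a b : ℂ) :
    Op (fun F v => a * T F v + b * T' F v) (fun ρ => a * m ρ + b * m' ρ) := by
  refine ⟨fun F hF => Ad.add (Ad.smul (h.ad _ hF) a) (Ad.smul (h'.ad _ hF) b), fun F G hF hG => ?_,
    fun F hF c => ?_, ?_, fun ρ hρ => ?_, ?_⟩
  · rw [h'.add F G hF hG, h.add F G hF hG]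
    funext v
    ring
  · rw [h'.smul F hF c, h.smul F hF c]
    funext v
    ring
  · obtain ⟨K, hK0, hK⟩ := h.bd
    obtain ⟨K', hK'0, hK'⟩ := h'.bd
    refine ⟨2 * (‖a‖ ^ 2 * K) + 2 * (‖b‖ ^ 2 * K'), by positivity, fun F hF V hV => ?_⟩
    refine (IQ_add (Ad.smul (h.ad _ hF) a) (Ad.smul (h'.ad _ hF) b) hV).trans ?_
    rw [IQ_smul, IQ_smul]
    have h1 := hK F hF V hV
    have h2 := hK' F hF V hV
    have h3 : ‖a‖ ^ 2 * IQ (T F) V ≤ ‖a‖ ^ 2 * (K * IQ F V) := by gcongr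
    have h4 : ‖b‖ ^ 2 * IQ (T' F) V ≤ ‖b‖ ^ 2 * (K' * IQ F V) := by gcongr
    linarith
  · have hE := E_ad hρ
    have e1 : (fun v => a * T (E ρ) v + b * T' (E ρ) v - (a * m ρ + b * m' ρ) * E ρ v) =
        fun v => a * (T (E ρ) v - m ρ * E ρ v) + b * (T' (E ρ) v - m' ρ * E ρ v) := by
      funext v
      ring
    rw [e1]
    exact ((h.ev ρ hρ).smul a).add (Ad.smul ((h.ad _ hE).sub (Ad.smul hE _)) _)
      (Ad.smul ((h'.ad _ hE).sub (Ad.smul hE _)) _) ((h'.ev ρ hρ).smul b)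
  · obtain ⟨B, hB⟩ := h.mb
    obtain ⟨B', hB'⟩ := h'.mb
    refine ⟨‖a‖ * B + ‖b‖ * B', fun ρ hρ => ?_⟩
    refine (norm_add_le _ _).trans ?_
    rw [norm_mul, norm_mul]
    have := hB ρ hρ
    have := hB' ρ hρ
    gcongr

/-- the identity -/
lemma one : Op (fun F => F) (fun _ => 1) := by
  refine ⟨fun F hF => hF, fun F G _ _ => rfl, fun F _ c => rfl, ⟨1, zero_le_one, fun F _ V _ => by
    rw [one_mul]⟩, fun ρ _ => ?_, ⟨1, fun ρ _ => by simp⟩⟩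
  have : (fun v => E ρ v - 1 * E ρ v) = fun _ => 0 := by
    funext v; ring
  rw [this]
  exact Pool.Agent.R613.WM.Z0.zero

/-- inverse operators -/
lemma inv (h : Op T m) (had : ∀ F, Ad F → Ad (T' F))
    (hadd : ∀ F G, Ad F → Ad G → T' (fun v => F v + G v) = fun v => T' F v + T' G v)
    (hsmul : ∀ F, Ad F → ∀ c : ℂ, T' (fun v => c * F v) = fun v => c * T' F v)
    (hbd : ∃ K : ℝ, 0 ≤ K ∧ ∀ F, Ad F → ∀ V : ℝ, 0 ≤ V → IQ (T' F) V ≤ K * IQ F V)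
    (hinv : ∀ F, Ad F → T' (T F) = F)
    {b : ℝ} (hb : 0 < b) (hm : ∀ ρ : ℂ, ρ.re = 1 / 2 → b ≤ ‖m ρ‖) : Op T' (fun ρ => (m ρ)⁻¹) := by
  refine ⟨had, hadd, hsmul, hbd, fun ρ hρ => ?_, ⟨b⁻¹, fun ρ hρ => ?_⟩⟩
  · have hE := E_ad hρ
    have hm0 : m ρ ≠ 0 := by
      have := hm ρ hρ
      intro h0
      rw [h0, norm_zero] at this
      linarith
    have hD : Ad (fun v => T (E ρ) v - m ρ * E ρ v) := (h.ad _ hE).sub (Ad.smul hE _)
    have hsub : T' (fun v => T (E ρ) v - m ρ * E ρ v) = fun v => E ρ v - m ρ * T' (E ρ) v := by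
      have h1 : (fun v => T (E ρ) v - m ρ * E ρ v) = fun v => T (E ρ) v + (-m ρ) * E ρ v := by
        funext v; ring
      rw [h1, hadd _ _ (h.ad _ hE) (Ad.smul hE _), hsmul _ hE, hinv _ hE]
      funext v
      ring
    have e1 : (fun v => T' (E ρ) v - (m ρ)⁻¹ * E ρ v) =
        fun v => (-(m ρ)⁻¹) * T' (fun v => T (E ρ) v - m ρ * E ρ v) v := by
      rw [hsub]
      funext v
      field_simp
      ring
    rw [e1]
    obtain ⟨K, _, hK⟩ := hbd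
    exact (Pool.Agent.R613.WM.Z0.of_le (h.ev ρ hρ) (hK _ hD)).smul _
  · rw [norm_inv]
    exact inv_anti₀ hb (hm ρ hρ)

end Op

end Pool.Agent.R613.WM
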