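import Pool.Agent.R613.WM.W1

set_option autoImplicit false

/-! # The limit of the mean square -/

namespace Pool.Agent.R613.WM

open MeasureTheory Filter Topology Set
open Pool.Agent.H295R2 (ww ee GR)
open Pool.Agent.W120.WM (ZC NT)
open Pool.Agent.TH223.AP (GR_lim dist_lim' SS ww_sq ft mn)
open Pool.Agent.R305.FM (Ad fC fC_ad norm_ee ee_cont mn_trig cesaro Ad.sub Ad.int_sq)

variable {T : (ℝ → ℂ) → ℝ → ℂ} {m : ℂ → ℂ}

/-- trigonometric polynomials, cut off at `0` -/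
noncomputable def TP (b : ℂ → ℂ) (Z : Finset ℂ) (v : ℝ) : ℂ := ∑ ρ ∈ Z, b ρ * E ρ v

lemma TP_ad (b : ℂ → ℂ) {Z : Finset ℂ} (hre : ∀ ρ ∈ Z, ρ.re = 1 / 2) : Ad (TP b Z) := by
  classical
  induction Z using Finset.induction_on with
  | empty =>
    have : TP b ∅ = fun _ => 0 := by funext v; simp [TP]
    rw [this]
    exact Ad.zero
  | insert a s ha ih =>
    have : TP b (insert a s) = fun v => b a * E a v + TP b s v := by
      funext v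
      unfold TP
      rw [Finset.sum_insert ha]
    rw [this]
    exact Ad.add (Ad.smul (E_ad (hre a (Finset.mem_insert_self _ _))) _)
      (ih fun ρ hρ => hre ρ (Finset.mem_insert_of_mem hρ))

lemma TP_op (h : Op T m) (b : ℂ → ℂ) {Z : Finset ℂ} (hre : ∀ ρ ∈ Z, ρ.re = 1 / 2) :
    Z0 (fun v => T (TP b Z) v - TP (fun ρ => b ρ * m ρ) Z v) := by
  classical
  induction Z using Finset.induction_on with
  | empty =>
    have e0 : TP b ∅ = fun _ => 0 := by funext v; simp [TP]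
    have : (fun v => T (TP b ∅) v - TP (fun ρ => b ρ * m ρ) ∅ v) = fun _ => 0 := by
      rw [e0, h.zero]
      funext v
      simp [TP]
    rw [this]
    exact Z0.zero
  | insert a s ha ih =>
    have hs : ∀ ρ ∈ s, ρ.re = 1 / 2 := fun ρ hρ => hre ρ (Finset.mem_insert_of_mem hρ)
    have ha' : a.re = 1 / 2 := hre a (Finset.mem_insert_self _ _)
    have hE := E_ad ha'
    have e0 : TP b (insert a s) = fun v => b a * E a v + TP b s v := by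
      funext v
      unfold TP
      rw [Finset.sum_insert ha]
    have : (fun v => T (TP b (insert a s)) v - TP (fun ρ => b ρ * m ρ) (insert a s) v) =
        fun v => b a * (T (E a) v - m a * E a v) + (T (TP b s) v - TP (fun ρ => b ρ * m ρ) s v) := by
      rw [e0, h.add _ _ (Ad.smul hE _) (TP_ad b hs), h.smul _ hE]
      funext v
      unfold TP
      rw [Finset.sum_insert ha]
      ring
    rw [this]
    exact ((h.ev a ha').smul _).add (Ad.smul ((h.ad _ hE).sub (Ad.smul hE _)) _)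
      ((h.ad _ (TP_ad b hs)).sub (TP_ad _ hs)) (ih hs)

lemma TP_eq (b : ℂ → ℂ) (Z : Finset ℂ) {v : ℝ} (hv : 0 ≤ v) : TP b Z v = ∑ ρ ∈ Z, b ρ * ee ρ v := by
  unfold TP E
  refine Finset.sum_congr rfl fun ρ _ => ?_
  rw [if_neg (not_lt.2 hv)]

lemma IQ_TP (b : ℂ → ℂ) (Z : Finset ℂ) {V : ℝ} (hV : 0 ≤ V) :
    IQ (TP b Z) V = ∫ v in (0:ℝ)..V, ‖∑ ρ ∈ Z, b ρ * ee ρ v‖ ^ 2 := by
  unfold IQ
  apply intervalIntegral.integral_congr
  intro v hv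
  rw [uIcc_of_le hV] at hv
  simp only
  rw [TP_eq b Z hv.1]

lemma dist_T (hZ : ZC) (h : Op T m) : ∃ K : ℝ, 0 ≤ K ∧ ∀ (Z : Finset ℂ), (∀ ρ ∈ Z, ρ ∈ NT) → ∀ δ : ℝ, 0 < δ →
    ∀ᶠ V : ℝ in atTop, IQ (fun v => T fC v - TP (fun ρ => ww ρ * m ρ) Z v) V / V ≤
      2 * K * (SS - ∑ ρ ∈ Z, 1 / ‖ρ * deriv riemannZeta ρ‖ ^ 2) + δ := by
  obtain ⟨K, hK0, hK⟩ := h.bd
  refine ⟨K, hK0, fun Z hZN δ hδ => ?_⟩
  have hre : ∀ ρ ∈ Z, ρ.re = 1 / 2 := fun ρ hρ => (hZ.1 ρ (hZN ρ hρ)).1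
  have hP := TP_ad ww hre
  have hR : Ad (fun v => fC v - TP ww Z v) := fC_ad.sub hP
  have hdl := dist_lim' hZ Z hZN
  obtain ⟨τ, hτ⟩ : ∃ τ : ℝ, τ = SS - ∑ ρ ∈ Z, 1 / ‖ρ * deriv riemannZeta ρ‖ ^ 2 := ⟨_, rfl⟩
  rw [← hτ] at hdl ⊢
  have hR1 : Tendsto (fun V : ℝ => IQ (fun v => fC v - TP ww Z v) V / V) atTop (𝓝 τ) := by
    refine hdl.congr' ?_
    filter_upwards [eventually_ge_atTop (0:ℝ)] with V hV
    unfold Pool.Agent.TH223.AP.mn IQ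
    congr 1
    apply intervalIntegral.integral_congr
    intro v hv
    rw [uIcc_of_le hV] at hv
    simp only
    rw [TP_eq ww Z hv.1]
    rfl
  have hD := TP_op h ww hre
  unfold Z0 at hD
  have hlim := (hR1.const_mul (2 * K)).add (hD.const_mul 2)
  rw [mul_zero, add_zero] at hlim
  have hDad : Ad (fun v => T (TP ww Z) v - TP (fun ρ => ww ρ * m ρ) Z v) :=
    (h.ad _ hP).sub (TP_ad _ hre)
  filter_upwards [hlim.eventually (gt_mem_nhds (lt_add_of_pos_right (2 * K * τ) hδ)),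
    eventually_gt_atTop (0:ℝ)] with V h1 hV
  refine le_trans ?_ h1.le
  have e1 : (fun v => T fC v - TP (fun ρ => ww ρ * m ρ) Z v) =
      fun v => T (fun v => fC v - TP ww Z v) v + (T (TP ww Z) v - TP (fun ρ => ww ρ * m ρ) Z v) := by
    rw [h.sub fC_ad hP]
    funext v
    ring
  rw [e1]
  have h2 := IQ_add (h.ad _ hR) hDad hV.le
  have h3 := hK _ hR V hV.le
  rw [div_le_iff₀ hV]
  have e2 : (2 * K * (IQ (fun v => fC v - TP ww Z v) V / V) +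
      2 * (IQ (fun v => T (TP ww Z) v - TP (fun ρ => ww ρ * m ρ) Z v) V / V)) * V =
      2 * (K * IQ (fun v => fC v - TP ww Z v) V) +
      2 * IQ (fun v => T (TP ww Z) v - TP (fun ρ => ww ρ * m ρ) Z v) V := by
    field_simp
  rw [e2]
  linarith

/-- the sum over the zeros -/
noncomputable def SM (m : ℂ → ℂ) : ℝ := ∑' ρ : NT, ‖m ρ‖ ^ 2 / ‖(ρ : ℂ) * deriv riemannZeta ρ‖ ^ 2

lemma SM_summable (hZ : ZC) (h : Op T m) :
    Summable fun ρ : NT => ‖m ρ‖ ^ 2 / ‖(ρ : ℂ) * deriv riemannZeta ρ‖ ^ 2 := by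
  obtain ⟨B, hB⟩ := h.mb
  refine Summable.of_nonneg_of_le (fun ρ => by positivity) (fun ρ => ?_) (hZ.2.mul_left (B ^ 2))
  have := hB ρ (hZ.1 ρ ρ.2).1
  rw [mul_one_div]
  gcongr

theorem lim_T (hZ : ZC) (h : Op T m) : Tendsto (fun V : ℝ => IQ (T fC) V / V) atTop (𝓝 (SM m)) := by
  classical
  have hSM0 : 0 ≤ SM m := tsum_nonneg fun ρ => by positivity
  obtain ⟨K, hK0, hKd⟩ := dist_T hZ h
  rw [Metric.tendsto_nhds]
  intro ε hε
  obtain ⟨η, hη⟩ : ∃ η : ℝ, η = ε / (8 * (SM m + 1)) := ⟨_, rfl⟩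
  have hη0 : 0 < η := by rw [hη]; positivity
  have hη1 : η * (SM m + 1) = ε / 8 := by rw [hη]; field_simp
  obtain ⟨θ, hθ⟩ : ∃ θ : ℝ, θ = ε / (8 * ((1 + 1 / η) * (2 * K) + 1)) := ⟨_, rfl⟩
  have hθ0 : 0 < θ := by rw [hθ]; positivity
  have hθ1 : ((1 + 1 / η) * (2 * K) + 1) * θ = ε / 8 := by rw [hθ]; field_simp
  obtain ⟨u, hu1, hu2⟩ : ∃ u : Finset NT,
      SS - ∑ ρ ∈ u, 1 / ‖(ρ : ℂ) * deriv riemannZeta ρ‖ ^ 2 < θ ∧
      |(∑ ρ ∈ u, ‖m ρ‖ ^ 2 / ‖(ρ : ℂ) * deriv riemannZeta ρ‖ ^ 2) - SM m| < ε / 8 := by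
    have a1 := Metric.tendsto_nhds.1 hZ.2.hasSum θ hθ0
    have a2 := Metric.tendsto_nhds.1 (SM_summable hZ h).hasSum (ε / 8) (by linarith)
    obtain ⟨u, h1, h2⟩ := (a1.and a2).exists
    refine ⟨u, ?_, ?_⟩
    · rw [Real.dist_eq] at h1
      have := (abs_lt.1 h1).1
      unfold Pool.Agent.TH223.AP.SS
      linarith
    · rwa [Real.dist_eq] at h2
  set Z : Finset ℂ := u.map (Function.Embedding.subtype _) with hZdef
  have hZm : ∀ ρ ∈ Z, ρ ∈ NT := by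
    intro ρ hρ
    rw [hZdef, Finset.mem_map] at hρ
    obtain ⟨ρ', -, rfl⟩ := hρ
    exact ρ'.2
  have hre : ∀ ρ ∈ Z, ρ.re = 1 / 2 := fun ρ hρ => (hZ.1 ρ (hZm ρ hρ)).1
  have hs1 : ∑ ρ ∈ Z, 1 / ‖ρ * deriv riemannZeta ρ‖ ^ 2 =
      ∑ ρ ∈ u, 1 / ‖(ρ : ℂ) * deriv riemannZeta ρ‖ ^ 2 := by
    rw [hZdef, Finset.sum_map]
    rfl
  have hs2 : ∑ ρ ∈ Z, ‖ww ρ * m ρ‖ ^ 2 =
      ∑ ρ ∈ u, ‖m ρ‖ ^ 2 / ‖(ρ : ℂ) * deriv riemannZeta ρ‖ ^ 2 := by
    rw [hZdef, Finset.sum_map]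
    refine Finset.sum_congr rfl fun ρ _ => ?_
    show ‖ww (ρ : ℂ) * m (ρ : ℂ)‖ ^ 2 = _
    rw [norm_mul, mul_pow, ww_sq]
    ring
  obtain ⟨δ, hδ⟩ : ∃ δ : ℝ, δ = min 1 (ε / (8 * (1 + 1 / η))) := ⟨_, rfl⟩
  have hδ0 : 0 < δ := by rw [hδ]; exact lt_min one_pos (by positivity)
  have hδ2 : (1 + 1 / η) * δ ≤ ε / 8 := by
    have : δ ≤ ε / (8 * (1 + 1 / η)) := by rw [hδ]; exact min_le_right _ _
    calc (1 + 1 / η) * δ ≤ (1 + 1 / η) * (ε / (8 * (1 + 1 / η))) := by gcongr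
      _ = ε / 8 := by field_simp
  have ev1 := hKd Z hZm δ hδ0
  rw [hs1] at ev1
  have hmt := mn_trig Z hre (fun ρ => ww ρ * m ρ)
  rw [hs2] at hmt
  obtain ⟨β, hβ⟩ : ∃ β : ℝ, β = ∑ ρ ∈ u, ‖m ρ‖ ^ 2 / ‖(ρ : ℂ) * deriv riemannZeta ρ‖ ^ 2 := ⟨_, rfl⟩
  rw [← hβ] at hmt hu2
  have hβle : β ≤ SM m := by
    rw [hβ]
    exact (SM_summable hZ h).sum_le_tsum u fun ρ _ => by positivity
  have ev2 := Metric.tendsto_nhds.1 hmt (min (ε / 8) 1) (lt_min (by linarith) one_pos)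
  filter_upwards [ev1, ev2, eventually_gt_atTop (0:ℝ)] with V h1 h2 hV
  rw [Real.dist_eq] at h2 ⊢
  rw [← IQ_TP _ _ hV.le] at h2
  obtain ⟨Q, hQ⟩ : ∃ Q : ℝ → ℂ, Q = TP (fun ρ => ww ρ * m ρ) Z := ⟨_, rfl⟩
  have hQad : Ad Q := by rw [hQ]; exact TP_ad _ hre
  have hGad : Ad (T fC) := h.ad _ fC_ad
  rw [← hQ] at h1 h2
  obtain ⟨x, hx⟩ : ∃ x : ℝ, x = IQ (T fC) V / V := ⟨_, rfl⟩
  obtain ⟨y, hy⟩ : ∃ y : ℝ, y = IQ Q V / V := ⟨_, rfl⟩
  obtain ⟨d, hd⟩ : ∃ d : ℝ, d = IQ (fun v => T fC v - Q v) V / V := ⟨_, rfl⟩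
  rw [← hd] at h1
  rw [← hy] at h2
  rw [← hx]
  have iT : IntervalIntegrable (fun v => ‖Q v‖ ^ 2) volume 0 V := hQad.int_sq 0 V
  have ih : IntervalIntegrable (fun v => ‖T fC v‖ ^ 2) volume 0 V := hGad.int_sq 0 V
  have id : IntervalIntegrable (fun v => ‖T fC v - Q v‖ ^ 2) volume 0 V := (hGad.sub hQad).int_sq 0 V
  have hxy : |x - y| ≤ (1 + 1 / η) * d + η * y := by
    have e1 : x - y = (∫ v in (0:ℝ)..V, (‖T fC v‖ ^ 2 - ‖Q v‖ ^ 2)) / V := by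
      rw [intervalIntegral.integral_sub ih iT, hx, hy]
      unfold IQ
      ring
    have e2 : |∫ v in (0:ℝ)..V, (‖T fC v‖ ^ 2 - ‖Q v‖ ^ 2)| ≤
        ∫ v in (0:ℝ)..V, ((1 + 1 / η) * ‖T fC v - Q v‖ ^ 2 + η * ‖Q v‖ ^ 2) := by
      refine (intervalIntegral.abs_integral_le_integral_abs hV.le).trans ?_
      refine intervalIntegral.integral_mono_on hV.le (ih.sub iT).abs
        ((id.const_mul _).add (iT.const_mul _)) fun v _ => ?_
      have f1 := abs_norm_sub_norm_le (T fC v) (Q v)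
      have f2 := norm_nonneg (T fC v - Q v)
      have f3 := norm_nonneg (T fC v)
      have f4 := norm_nonneg (Q v)
      have f5 : |‖T fC v‖ ^ 2 - ‖Q v‖ ^ 2| = |‖T fC v‖ - ‖Q v‖| * (‖T fC v‖ + ‖Q v‖) := by
        rw [show ‖T fC v‖ ^ 2 - ‖Q v‖ ^ 2 = (‖T fC v‖ - ‖Q v‖) * (‖T fC v‖ + ‖Q v‖) by ring, abs_mul,
          abs_of_nonneg (by positivity : 0 ≤ ‖T fC v‖ + ‖Q v‖)]
      have f6 : ‖T fC v‖ ≤ ‖T fC v - Q v‖ + ‖Q v‖ := by
        have := (le_abs_self _).trans f1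
        linarith
      rw [f5]
      have f7 : |‖T fC v‖ - ‖Q v‖| * (‖T fC v‖ + ‖Q v‖) ≤ ‖T fC v - Q v‖ * (‖T fC v - Q v‖ + 2 * ‖Q v‖) :=
        mul_le_mul f1 (by linarith) (by positivity) f2
      refine f7.trans ?_
      have f8 : 2 * ‖T fC v - Q v‖ * ‖Q v‖ ≤ 1 / η * ‖T fC v - Q v‖ ^ 2 + η * ‖Q v‖ ^ 2 := by
        have : 0 ≤ 1 / η * (‖T fC v - Q v‖ - η * ‖Q v‖) ^ 2 := by positivity
        have f9 : 1 / η * (‖T fC v - Q v‖ - η * ‖Q v‖) ^ 2 =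
            1 / η * ‖T fC v - Q v‖ ^ 2 - 2 * ‖T fC v - Q v‖ * ‖Q v‖ + η * ‖Q v‖ ^ 2 := by
          field_simp
          ring
        linarith
      nlinarith
    rw [intervalIntegral.integral_add (id.const_mul _) (iT.const_mul _), intervalIntegral.integral_const_mul,
      intervalIntegral.integral_const_mul] at e2
    rw [e1, abs_div, abs_of_pos hV, div_le_iff₀ hV, hd, hy]
    refine e2.trans (le_of_eq ?_)
    unfold IQ
    field_simp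
  have hm1 := min_le_right (ε / 8) (1:ℝ)
  have hm8 := min_le_left (ε / 8) (1:ℝ)
  have g1 := abs_lt.1 h2
  have g2 := abs_lt.1 hu2
  have hyle : y ≤ SM m + 1 := by linarith [g1.2]
  have g3 : η * y ≤ ε / 8 := by rw [← hη1]; gcongr
  have hq0 : 0 < 1 + 1 / η := by positivity
  have g4 : (1 + 1 / η) * d ≤ ε / 8 + ε / 8 := by
    calc (1 + 1 / η) * d ≤ (1 + 1 / η) * (2 * K * (SS -
          ∑ ρ ∈ u, 1 / ‖(ρ : ℂ) * deriv riemannZeta ρ‖ ^ 2) + δ) := by gcongr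
      _ ≤ (1 + 1 / η) * (2 * K * θ + δ) := by gcongr
      _ = (1 + 1 / η) * (2 * K) * θ + (1 + 1 / η) * δ := by ring
      _ ≤ ε / 8 + ε / 8 := by
        have : (1 + 1 / η) * (2 * K) * θ ≤ ε / 8 := by
          have e9 : ((1 + 1 / η) * (2 * K) + 1) * θ = (1 + 1 / η) * (2 * K) * θ + θ := by ring
          rw [e9] at hθ1
          linarith
        linarith
  have g5 := abs_le.1 hxy
  rw [abs_lt]
  constructor
  · linarith [g5.1, g1.1, g2.1]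
  · linarith [g5.2, g1.2, g2.2]

/-- the converse: if `fC = S (T fC)` with `S` bounded, then the mean square of `T fC` tends to
infinity unless `ZC` holds -/
theorem fC_top (hZ : ¬ ZC) : Tendsto (fun V : ℝ => IQ fC V / V) atTop atTop := by
  have h1 := (Pool.Agent.W120.WM.final3 1 one_pos le_rfl).2 hZ
  have h2 := h1.comp Real.tendsto_exp_atTop
  refine h2.congr' ?_
  filter_upwards [eventually_gt_atTop (0:ℝ)] with V hV
  simp only [Function.comp]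
  rw [Real.log_exp, sub_self, Real.rpow_zero]
  have h0 : (0:ℝ) < Real.exp 0 := Real.exp_pos _
  rw [Pool.Agent.W120.WM.msq_eq one_pos (Real.one_le_exp hV.le), Real.log_one, Real.log_exp]
  unfold IQ
  rw [intervalIntegral.integral_of_le hV.le]
  congr 1
  rw [Pool.Agent.W120.WM.JW_ff]
  refine setIntegral_congr_fun measurableSet_Ioc fun v _ => ?_
  unfold Pool.Agent.W120.WM.ff fC
  rw [Complex.norm_real, Real.norm_eq_abs, sq_abs, mul_pow, ← Real.exp_nat_mul]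
  have : ((2:ℕ) : ℝ) * -(v / 2) = -v := by push_cast; ring
  rw [this]
  rfl

theorem top_T (hZ : ¬ ZC) {G : ℝ → ℂ} {K : ℝ} (hK : 0 < K) (h : ∀ V : ℝ, 0 ≤ V → IQ fC V ≤ K * IQ G V) :
    Tendsto (fun V : ℝ => IQ G V / V) atTop atTop := by
  have h2 := (fC_top hZ).atTop_div_const hK
  refine tendsto_atTop_mono' atTop ?_ h2
  filter_upwards [eventually_gt_atTop (0:ℝ)] with V hV
  have := h V hV.le
  rw [div_div, div_le_div_iff₀ (by positivity) hV]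
  nlinarith

end Pool.Agent.R613.WM
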