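import Pool.Agent.R613.WM.W2

set_option autoImplicit false

/-! # The operators: shifts, geometric series of shifts, exponential kernels -/

namespace Pool.Agent.R613.WM

open MeasureTheory Filter Topology Set
open Pool.Agent.H295R2 (ee)
open Pool.Agent.R305.FM (Ad norm_ee ee_cont Ad.sub Ad.int_sq shift_le)

/-- the shift -/
noncomputable def sh (L : ℝ) (F : ℝ → ℂ) (v : ℝ) : ℂ := F (v - L)

lemma sh_ad {L : ℝ} (hL : 0 ≤ L) {F : ℝ → ℂ} (hF : Ad F) : Ad (sh L F) := by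
  refine ⟨hF.meas.comp (measurable_id.sub_const L), fun v hv => hF.neg _ (by linarith), fun V => ?_⟩
  obtain ⟨B, hB0, hB⟩ := hF.bdd V
  exact ⟨B, hB0, fun v hv => hB _ (by linarith)⟩

lemma sh_le {L : ℝ} (hL : 0 ≤ L) {F : ℝ → ℂ} (hF : Ad F) {V : ℝ} (hV : 0 ≤ V) : IQ (sh L F) V ≤ IQ F V :=
  shift_le hF hV hL

lemma norm_mul_exp {ρ : ℂ} (hρ : ρ.re = 1 / 2) (L : ℝ) : ‖Complex.exp (-((ρ - 1 / 2) * L))‖ = 1 := by
  rw [Complex.norm_exp]
  have : (-((ρ - 1 / 2) * (L : ℂ))).re = 0 := by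
    rw [Complex.neg_re, Complex.re_mul_ofReal]
    simp [hρ]
  rw [this, Real.exp_zero]

lemma sh_op {L : ℝ} (hL : 0 ≤ L) : Op (sh L) (fun ρ => Complex.exp (-((ρ - 1 / 2) * L))) := by
  refine ⟨fun F hF => sh_ad hL hF, fun F G _ _ => rfl, fun F _ c => rfl, ⟨1, zero_le_one, fun F hF V hV => by
    rw [one_mul]
    exact sh_le hL hF hV⟩, fun ρ hρ => ?_, ⟨1, fun ρ hρ => (norm_mul_exp hρ L).le⟩⟩
  have hE := E_ad hρ
  refine Z0.of_tendsto ((sh_ad hL hE).sub (Ad.smul hE _)) ?_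
  refine tendsto_const_nhds.congr' ?_
  filter_upwards [eventually_ge_atTop L] with v hv
  unfold sh E
  rw [if_neg (by linarith), if_neg (by linarith)]
  have h3 : ee ρ (v - L) = ee ρ v * Complex.exp (-((ρ - 1 / 2) * L)) := by
    unfold Pool.Agent.H295R2.ee
    rw [← Complex.exp_add]
    congr 1
    push_cast
    ring
  rw [h3]
  ring

/-- `1 - r τ_L` -/
noncomputable def om (r L : ℝ) (F : ℝ → ℂ) (v : ℝ) : ℂ := F v - (r : ℂ) * F (v - L)

/-- the multiplier of `om` -/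
noncomputable def omm (r L : ℝ) (ρ : ℂ) : ℂ := 1 - (r : ℂ) * Complex.exp (-((ρ - 1 / 2) * L))

lemma om_op (r : ℝ) {L : ℝ} (hL : 0 ≤ L) : Op (om r L) (omm r L) := by
  have h := Op.one.lin (sh_op hL) 1 (-(r : ℂ))
  have e1 : (fun (F : ℝ → ℂ) v => (1:ℂ) * F v + (-(r : ℂ)) * sh L F v) = om r L := by
    funext F v
    unfold om sh
    ring
  have e2 : (fun ρ : ℂ => (1:ℂ) * 1 + (-(r : ℂ)) * Complex.exp (-((ρ - 1 / 2) * L))) = omm r L := by
    funext ρ
    unfold omm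
    ring
  rw [e1, e2] at h
  exact h

lemma omm_ge {r L : ℝ} (hr : 0 ≤ r) {ρ : ℂ} (hρ : ρ.re = 1 / 2) : 1 - r ≤ ‖omm r L ρ‖ := by
  unfold omm
  have h1 : ‖(r : ℂ) * Complex.exp (-((ρ - 1 / 2) * L))‖ = r := by
    rw [norm_mul, norm_mul_exp hρ, mul_one, Complex.norm_real, Real.norm_of_nonneg hr]
  have h2 := norm_sub_norm_le (1:ℂ) ((r : ℂ) * Complex.exp (-((ρ - 1 / 2) * L)))
  rw [h1, norm_one] at h2
  exact h2

/-- `∑_k r^k τ_{kL}` -/
noncomputable def ge (r L : ℝ) (F : ℝ → ℂ) (v : ℝ) : ℂ :=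
  ∑ k ∈ Finset.range (⌊v / L⌋₊ + 1), (r : ℂ) ^ k * F (v - k * L)

lemma ge_eq {r L : ℝ} (hL : 0 < L) {F : ℝ → ℂ} (hF : Ad F) {v : ℝ} {N : ℕ} (hN : ⌊v / L⌋₊ + 1 ≤ N) :
    ge r L F v = ∑ k ∈ Finset.range N, (r : ℂ) ^ k * F (v - k * L) := by
  unfold ge
  apply Finset.sum_subset (Finset.range_mono hN)
  intro k _ hk
  rw [Finset.mem_range, not_lt] at hk
  have h1 : v / L < k := by
    have := Nat.lt_floor_add_one (v / L)
    have h2 : ((⌊v / L⌋₊ : ℝ) + 1) ≤ k := by exact_mod_cast hk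
    linarith
  rw [div_lt_iff₀ hL] at h1
  rw [hF.neg _ (by linarith), mul_zero]

lemma ge_ad {r L : ℝ} (hr : 0 ≤ r) (hr1 : r < 1) (hL : 0 < L) {F : ℝ → ℂ} (hF : Ad F) : Ad (ge r L F) := by
  refine ⟨?_, ?_, ?_⟩
  · refine measurable_of_tendsto_metrizable (f := fun N : ℕ => fun v : ℝ =>
      ∑ k ∈ Finset.range N, (r : ℂ) ^ k * F (v - k * L)) (fun N => ?_) ?_
    · refine Finset.measurable_sum _ fun k _ => ?_
      exact (hF.meas.comp (measurable_id.sub_const _)).const_mul _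
    · rw [tendsto_pi_nhds]
      intro v
      refine tendsto_const_nhds.congr' ?_
      filter_upwards [eventually_ge_atTop (⌊v / L⌋₊ + 1)] with N hN
      exact ge_eq hL hF hN
  · intro v hv
    unfold ge
    refine Finset.sum_eq_zero fun k _ => ?_
    have : 0 ≤ (k : ℝ) * L := by positivity
    rw [hF.neg _ (by linarith), mul_zero]
  · intro V
    obtain ⟨B, hB0, hB⟩ := hF.bdd V
    refine ⟨(1 - r)⁻¹ * B, by have : 0 < 1 - r := by linarith
                              positivity, fun v hv => ?_⟩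
    unfold ge
    have h1 : ‖∑ k ∈ Finset.range (⌊v / L⌋₊ + 1), (r : ℂ) ^ k * F (v - k * L)‖ ≤
        ∑ k ∈ Finset.range (⌊v / L⌋₊ + 1), r ^ k * B := by
      refine norm_sum_le_of_le _ fun k _ => ?_
      have : 0 ≤ (k : ℝ) * L := by positivity
      rw [norm_mul, norm_pow, Complex.norm_real, Real.norm_of_nonneg hr]
      exact mul_le_mul_of_nonneg_left (hB _ (by linarith)) (by positivity)
    refine h1.trans ?_
    rw [← Finset.sum_mul]
    apply mul_le_mul_of_nonneg_right _ hB0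
    have h2 := (summable_geometric_of_lt_one hr hr1).sum_le_tsum (Finset.range (⌊v / L⌋₊ + 1))
      (fun k _ => by positivity)
    rwa [tsum_geometric_of_lt_one hr hr1] at h2

lemma ge_rec {r L : ℝ} (hL : 0 < L) {F : ℝ → ℂ} (hF : Ad F) (v : ℝ) :
    ge r L F v = F v + (r : ℂ) * ge r L F (v - L) := by
  rw [ge_eq hL hF (N := ⌊v / L⌋₊ + 1 + 1) (by omega), Finset.sum_range_succ']
  have h1 : ⌊(v - L) / L⌋₊ + 1 ≤ ⌊v / L⌋₊ + 1 := by
    have : (v - L) / L ≤ v / L := by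
      gcongr
      linarith
    have := Nat.floor_le_floor this
    omega
  rw [ge_eq hL hF h1, Finset.mul_sum]
  rw [add_comm]
  congr 1
  · simp
  · refine Finset.sum_congr rfl fun k _ => ?_
    rw [pow_succ]
    have : v - ((k + 1 : ℕ) : ℝ) * L = v - L - k * L := by push_cast; ring
    rw [this]
    ring

lemma ge_om {r L : ℝ} (hL : 0 < L) {F : ℝ → ℂ} (hF : Ad F) : ge r L (om r L F) = F := by
  have hO : Ad (om r L F) := (om_op r hL.le).ad F hF
  -- the difference satisfies `D v = r D (v - L)` and vanishes for negative `v`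
  have h1 : ∀ n : ℕ, ∀ v : ℝ, v < n * L → ge r L (om r L F) v = F v := by
    intro n
    induction n with
    | zero =>
      intro v hv
      rw [Nat.cast_zero, zero_mul] at hv
      rw [hF.neg v hv]
      unfold ge
      refine Finset.sum_eq_zero fun k _ => ?_
      have : 0 ≤ (k : ℝ) * L := by positivity
      rw [hO.neg _ (by linarith), mul_zero]
    | succ n ih =>
      intro v hv
      rw [ge_rec hL hO, ih (v - L) (by push_cast at hv; linarith)]
      unfold om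
      ring
  funext v
  obtain ⟨n, hn⟩ := exists_nat_gt (v / L)
  rw [div_lt_iff₀ hL] at hn
  exact h1 n v hn

lemma om_ge {r L : ℝ} (hL : 0 < L) {F : ℝ → ℂ} (hF : Ad F) : om r L (ge r L F) = F := by
  funext v
  have := ge_rec (r := r) hL hF v
  unfold om
  rw [this]
  ring

lemma ge_bd {r L : ℝ} (hr : 0 ≤ r) (hr1 : r < 1) (hL : 0 < L) {F : ℝ → ℂ} (hF : Ad F) {V : ℝ} (hV : 0 ≤ V) :
    IQ (ge r L F) V ≤ (1 / (1 - r) ^ 2) * IQ F V := by
  have h1r : 0 < 1 - r := by linarith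
  have hG := ge_ad hr hr1 hL hF
  have hS := sh_ad hL.le hG
  have h1 : IQ (ge r L F) V ≤ 1 / (1 - r) * IQ F V + r * IQ (sh L (ge r L F)) V := by
    unfold IQ
    rw [← intervalIntegral.integral_const_mul, ← intervalIntegral.integral_const_mul,
      ← intervalIntegral.integral_add ((hF.int_sq 0 V).const_mul _) ((hS.int_sq 0 V).const_mul _)]
    refine intervalIntegral.integral_mono_on hV (hG.int_sq 0 V)
      (((hF.int_sq 0 V).const_mul _).add ((hS.int_sq 0 V).const_mul _)) fun v _ => ?_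
    have h2 : ‖ge r L F v‖ ≤ ‖F v‖ + r * ‖sh L (ge r L F) v‖ := by
      rw [ge_rec hL hF v]
      refine (norm_add_le _ _).trans ?_
      rw [norm_mul, Complex.norm_real, Real.norm_of_nonneg hr]
      rfl
    have h3 : ‖ge r L F v‖ ^ 2 ≤ (‖F v‖ + r * ‖sh L (ge r L F) v‖) ^ 2 := by gcongr
    refine h3.trans ?_
    have h4 : 1 / (1 - r) * ‖F v‖ ^ 2 + r * ‖sh L (ge r L F) v‖ ^ 2 - (‖F v‖ + r * ‖sh L (ge r L F) v‖) ^ 2 =
        r / (1 - r) * (‖F v‖ - (1 - r) * ‖sh L (ge r L F) v‖) ^ 2 := by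
      field_simp
      ring
    have h5 : 0 ≤ r / (1 - r) * (‖F v‖ - (1 - r) * ‖sh L (ge r L F) v‖) ^ 2 := by positivity
    linarith
  have h2 := sh_le hL.le hG hV
  have h3 : r * IQ (sh L (ge r L F)) V ≤ r * IQ (ge r L F) V := by gcongr
  have h4 : (1 - r) * IQ (ge r L F) V ≤ 1 / (1 - r) * IQ F V := by linarith
  have h5 : IQ (ge r L F) V ≤ (1 / (1 - r) * IQ F V) / (1 - r) := by
    rw [le_div_iff₀ h1r]
    linarith
  refine h5.trans (le_of_eq ?_)
  field_simp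

lemma ge_op {r L : ℝ} (hr : 0 ≤ r) (hr1 : r < 1) (hL : 0 < L) : Op (ge r L) (fun ρ => (omm r L ρ)⁻¹) := by
  refine (om_op r hL.le).inv (fun F hF => ge_ad hr hr1 hL hF) (fun F G _ _ => ?_) (fun F _ c => ?_)
    ⟨1 / (1 - r) ^ 2, by positivity, fun F hF V hV => ge_bd hr hr1 hL hF hV⟩
    (fun F hF => ge_om hL hF) (b := 1 - r) (by linarith) (fun ρ hρ => omm_ge hr hρ)
  · funext v
    unfold ge
    rw [← Finset.sum_add_distrib]
    exact Finset.sum_congr rfl fun k _ => by ring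
  · funext v
    unfold ge
    rw [Finset.mul_sum]
    exact Finset.sum_congr rfl fun k _ => by ring

end Pool.Agent.R613.WM
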