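import Pool.Agent.R613.WM.W3

set_option autoImplicit false

/-! # The exponential kernel -/

namespace Pool.Agent.R613.WM

open MeasureTheory Filter Topology Set
open Pool.Agent.H295R2 (ee)
open Pool.Agent.R305.FM (Ad norm_ee ee_cont Ad.sub Ad.int_sq)

lemma Ad.ii {F : ℝ → ℂ} (hF : Ad F) (a b : ℝ) : IntervalIntegrable F volume a b := by
  obtain ⟨B, hB0, hB⟩ := hF.bdd (max a b)
  rw [intervalIntegrable_iff]
  refine Integrable.mono' (g := fun _ => B) (integrableOn_const (by simp [Set.uIoc]))
    hF.meas.aestronglyMeasurable ?_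
  exact (ae_restrict_mem measurableSet_uIoc).mono fun v hv => hB v hv.2

lemma Ad.iie {F : ℝ → ℂ} (hF : Ad F) (β a b : ℝ) :
    IntervalIntegrable (fun w => F w * Complex.exp (β * w)) volume a b := by
  apply (Ad.ii hF a b).mul_continuousOn
  exact Continuous.continuousOn (by fun_prop)

/-- `∫_0^v F(w) e^{-β(v-w)} dw` -/
noncomputable def ek (β : ℝ) (F : ℝ → ℂ) (v : ℝ) : ℂ :=
  if v < 0 then 0 else Complex.exp (-(β * v)) * ∫ w in (0:ℝ)..v, F w * Complex.exp (β * w)

lemma norm_exp_mul_real (β w : ℝ) : ‖Complex.exp (β * w)‖ = Real.exp (β * w) := by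
  rw [Complex.norm_exp]
  congr 1
  rw [← Complex.ofReal_mul, Complex.ofReal_re]

lemma norm_exp_neg_mul_real (β w : ℝ) : ‖Complex.exp (-(β * w))‖ = Real.exp (-(β * w)) := by
  rw [Complex.norm_exp]
  congr 1
  rw [← Complex.ofReal_mul, ← Complex.ofReal_neg, Complex.ofReal_re]

lemma ek_ad {β : ℝ} (hβ : 0 < β) {F : ℝ → ℂ} (hF : Ad F) : Ad (ek β F) := by
  refine ⟨?_, fun v hv => by unfold ek; rw [if_pos hv], fun V => ?_⟩
  · refine Measurable.ite measurableSet_Iio measurable_const ?_
    refine Measurable.mul (by fun_prop) ?_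
    exact (intervalIntegral.continuous_primitive (fun a b => Ad.iie hF β a b) 0).measurable
  · obtain ⟨B, hB0, hB⟩ := hF.bdd V
    refine ⟨B * max V 0, by positivity, fun v hv => ?_⟩
    unfold ek
    split_ifs with h
    · rw [norm_zero]
      positivity
    · push Not at h
      rw [norm_mul, norm_exp_neg_mul_real]
      have h1 : ‖∫ w in (0:ℝ)..v, F w * Complex.exp (β * w)‖ ≤ (B * Real.exp (β * v)) * |v - 0| := by
        apply intervalIntegral.norm_integral_le_of_norm_le_const
        intro w hw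
        rw [uIoc_of_le h] at hw
        rw [norm_mul, norm_exp_mul_real]
        have e1 := hB w (hw.2.trans hv)
        have e2 : Real.exp (β * w) ≤ Real.exp (β * v) := by
          apply Real.exp_le_exp.2
          gcongr
          exact hw.2
        gcongr
      rw [sub_zero, abs_of_nonneg h] at h1
      calc Real.exp (-(β * v)) * ‖∫ w in (0:ℝ)..v, F w * Complex.exp (β * w)‖ ≤
          Real.exp (-(β * v)) * ((B * Real.exp (β * v)) * v) := by gcongr
        _ = B * v * (Real.exp (-(β * v)) * Real.exp (β * v)) := by ring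
        _ = B * v := by rw [← Real.exp_add, neg_add_cancel, Real.exp_zero, mul_one]
        _ ≤ B * max V 0 := by
          gcongr
          exact hv.trans (le_max_left _ _)

lemma int_exp_le {β w V : ℝ} (hβ : 0 < β) (hwV : w ≤ V) :
    ∫ v in Icc w V, Real.exp (-(β * (v - w))) ≤ 1 / β := by
  rw [integral_Icc_eq_integral_Ioc, ← intervalIntegral.integral_of_le hwV]
  have h1 : ∀ v : ℝ, HasDerivAt (fun v => -(1 / β) * Real.exp (-(β * (v - w)))) (Real.exp (-(β * (v - w)))) v := by
    intro v
    have h2 : HasDerivAt (fun v : ℝ => -(β * (v - w))) (-(β * 1)) v :=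
      (((hasDerivAt_id v).sub_const w).const_mul β).neg
    have h3 := (h2.exp).const_mul (-(1 / β))
    have h4 : -(1 / β) * (Real.exp (-(β * (v - w))) * -(β * 1)) = Real.exp (-(β * (v - w))) := by
      have := hβ.ne'
      field_simp
    rw [h4] at h3
    exact h3
  rw [intervalIntegral.integral_eq_sub_of_hasDerivAt (fun v _ => h1 v)
    (Continuous.intervalIntegrable (by fun_prop) _ _)]
  rw [sub_self, mul_zero, neg_zero, Real.exp_zero]
  have : 0 ≤ (1 / β) * Real.exp (-(β * (V - w))) := by positivity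
  linarith

lemma ek_bd {β : ℝ} (hβ : 0 < β) {F : ℝ → ℂ} (hF : Ad F) {V : ℝ} (hV : 0 ≤ V) :
    IQ (ek β F) V ≤ (1 / β) ^ 2 * IQ F V := by
  obtain ⟨B, hB0, hB⟩ := hF.bdd V
  -- pointwise Cauchy–Schwarz
  obtain ⟨k, hk⟩ : ∃ k : ℝ → ℝ → ℝ, k = fun v w =>
    if w ≤ v then ‖F w‖ ^ 2 * Real.exp (-(β * (v - w))) else 0 := ⟨_, rfl⟩
  have hkm : Measurable (Function.uncurry k) := by
    rw [hk]
    refine Measurable.ite (measurableSet_le measurable_snd measurable_fst) ?_ measurable_const
    refine Measurable.mul ((hF.meas.comp measurable_snd).norm.pow_const 2) ?_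
    exact Real.measurable_exp.comp (((measurable_fst.sub measurable_snd).const_mul β).neg)
  have hk0 : ∀ v w, 0 ≤ k v w := by
    intro v w
    rw [hk]
    simp only
    split_ifs <;> positivity
  have hkB : ∀ v w, w ≤ V → k v w ≤ B ^ 2 := by
    intro v w hw
    rw [hk]
    simp only
    split_ifs with h
    · have h1 : Real.exp (-(β * (v - w))) ≤ 1 := by
        rw [Real.exp_le_one_iff]
        have : 0 ≤ β * (v - w) := mul_nonneg hβ.le (by linarith)
        linarith
      have h2 := hB w hw
      calc ‖F w‖ ^ 2 * Real.exp (-(β * (v - w))) ≤ B ^ 2 * 1 := by gcongr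
        _ = B ^ 2 := mul_one _
    · positivity
  have hpt : ∀ v ∈ Icc (0:ℝ) V, ‖ek β F v‖ ^ 2 ≤ (1 / β) * ∫ w in Ioc 0 V, k v w := by
    intro v hv
    have hn : ‖ek β F v‖ ≤ ∫ w in Ioc 0 v, ‖F w‖ * Real.exp (-(β * (v - w))) := by
      unfold ek
      rw [if_neg (not_lt.2 hv.1), norm_mul, norm_exp_neg_mul_real]
      calc Real.exp (-(β * v)) * ‖∫ w in (0:ℝ)..v, F w * Complex.exp (β * w)‖ ≤
          Real.exp (-(β * v)) * ∫ w in (0:ℝ)..v, ‖F w * Complex.exp (β * w)‖ := by
            gcongr
            exact intervalIntegral.norm_integral_le_integral_norm hv.1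
        _ = ∫ w in Ioc 0 v, ‖F w‖ * Real.exp (-(β * (v - w))) := by
          rw [intervalIntegral.integral_of_le hv.1, ← integral_const_mul]
          refine setIntegral_congr_fun measurableSet_Ioc fun w _ => ?_
          rw [norm_mul, norm_exp_mul_real]
          have : Real.exp (-(β * (v - w))) = Real.exp (-(β * v)) * Real.exp (β * w) := by
            rw [← Real.exp_add]
            congr 1
            ring
          rw [this]
          ring
    -- Cauchy–Schwarz through `2 x y ≤ x² / c + c y²`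
    obtain ⟨I1, hI1⟩ : ∃ I1 : ℝ, I1 = ∫ w in Ioc 0 v, ‖F w‖ * Real.exp (-(β * (v - w))) := ⟨_, rfl⟩
    obtain ⟨I2, hI2⟩ : ∃ I2 : ℝ, I2 = ∫ w in Ioc 0 v, ‖F w‖ ^ 2 * Real.exp (-(β * (v - w))) := ⟨_, rfl⟩
    have hi1 : IntegrableOn (fun w => ‖F w‖ * Real.exp (-(β * (v - w)))) (Ioc 0 v) := by
      refine Integrable.mono' (g := fun _ => B) (integrableOn_const (by simp)) ?_ ?_
      · exact (hF.meas.norm.mul (by fun_prop)).aestronglyMeasurable
      · refine (ae_restrict_mem measurableSet_Ioc).mono fun w hw => ?_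
        rw [Real.norm_of_nonneg (by positivity)]
        have h1 : Real.exp (-(β * (v - w))) ≤ 1 := by
          rw [Real.exp_le_one_iff]
          have : 0 ≤ β * (v - w) := mul_nonneg hβ.le (by linarith [hw.2])
          linarith
        have h2 := hB w (hw.2.trans hv.2)
        calc ‖F w‖ * Real.exp (-(β * (v - w))) ≤ B * 1 := by gcongr
          _ = B := mul_one _
    have hi2 : IntegrableOn (fun w => ‖F w‖ ^ 2 * Real.exp (-(β * (v - w)))) (Ioc 0 v) := by
      refine Integrable.mono' (g := fun _ => B ^ 2) (integrableOn_const (by simp)) ?_ ?_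
      · exact ((hF.meas.norm.pow_const 2).mul (by fun_prop)).aestronglyMeasurable
      · refine (ae_restrict_mem measurableSet_Ioc).mono fun w hw => ?_
        rw [Real.norm_of_nonneg (by positivity)]
        have h1 : Real.exp (-(β * (v - w))) ≤ 1 := by
          rw [Real.exp_le_one_iff]
          have : 0 ≤ β * (v - w) := mul_nonneg hβ.le (by linarith [hw.2])
          linarith
        have h2 := hB w (hw.2.trans hv.2)
        calc ‖F w‖ ^ 2 * Real.exp (-(β * (v - w))) ≤ B ^ 2 * 1 := by gcongr
          _ = B ^ 2 := mul_one _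
    have hi0 : IntegrableOn (fun w => Real.exp (-(β * (v - w)))) (Ioc 0 v) :=
      (Continuous.integrableOn_Icc (by fun_prop)).mono_set Ioc_subset_Icc_self
    have hI0 : ∫ w in Ioc 0 v, Real.exp (-(β * (v - w))) ≤ 1 / β := by
      rw [← intervalIntegral.integral_of_le hv.1]
      have h1 : ∀ w : ℝ, HasDerivAt (fun w => (1 / β) * Real.exp (-(β * (v - w)))) (Real.exp (-(β * (v - w)))) w := by
        intro w
        have h2 : HasDerivAt (fun w : ℝ => -(β * (v - w))) (-(β * (-1))) w :=
          (((hasDerivAt_id w).const_sub v).const_mul β).neg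
        have h3 := (h2.exp).const_mul (1 / β)
        have h4 : (1 / β) * (Real.exp (-(β * (v - w))) * -(β * (-1))) = Real.exp (-(β * (v - w))) := by
          have := hβ.ne'
          field_simp
        rw [h4] at h3
        exact h3
      rw [intervalIntegral.integral_eq_sub_of_hasDerivAt (fun w _ => h1 w)
        (Continuous.intervalIntegrable (by fun_prop) _ _)]
      rw [sub_self, mul_zero, neg_zero, Real.exp_zero]
      have : 0 ≤ (1 / β) * Real.exp (-(β * (v - 0))) := by positivity
      linarith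
    have hI2k : I2 ≤ ∫ w in Ioc 0 V, k v w := by
      rw [hI2]
      have h1 : ∫ w in Ioc 0 v, ‖F w‖ ^ 2 * Real.exp (-(β * (v - w))) = ∫ w in Ioc 0 v, k v w := by
        refine setIntegral_congr_fun measurableSet_Ioc fun w hw => ?_
        rw [hk]
        simp only
        rw [if_pos hw.2]
      rw [h1]
      refine setIntegral_mono_set ?_ (Eventually.of_forall fun w => hk0 v w)
        (Ioc_subset_Ioc_right hv.2).eventuallyLE
      refine Integrable.mono' (g := fun _ => B ^ 2) (integrableOn_const (by simp)) ?_ ?_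
      · exact (hkm.of_uncurry_left (x := v)).aestronglyMeasurable
      · refine (ae_restrict_mem measurableSet_Ioc).mono fun w hw => ?_
        rw [Real.norm_of_nonneg (hk0 v w)]
        exact hkB v w hw.2
    have hI20 : 0 ≤ I2 := by
      rw [hI2]
      exact setIntegral_nonneg measurableSet_Ioc fun w _ => by positivity
    have hI10 : 0 ≤ I1 := by
      rw [hI1]
      exact setIntegral_nonneg measurableSet_Ioc fun w _ => by positivity
    -- for all `t > 0`: `2 I1 ≤ t I2 + (1/t) / β`
    have key : ∀ t : ℝ, 0 < t → 2 * I1 ≤ t * I2 + (1 / t) * (1 / β) := by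
      intro t ht
      have h1 : ∫ w in Ioc 0 v, 2 * (‖F w‖ * Real.exp (-(β * (v - w)))) ≤
          ∫ w in Ioc 0 v, (t * (‖F w‖ ^ 2 * Real.exp (-(β * (v - w)))) +
            (1 / t) * Real.exp (-(β * (v - w)))) := by
        refine setIntegral_mono_on (hi1.const_mul 2) ((hi2.const_mul t).add (hi0.const_mul _))
          measurableSet_Ioc fun w _ => ?_
        have h2 : t * (‖F w‖ ^ 2 * Real.exp (-(β * (v - w)))) + (1 / t) * Real.exp (-(β * (v - w))) -
            2 * (‖F w‖ * Real.exp (-(β * (v - w)))) =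
            1 / t * (t * ‖F w‖ - 1) ^ 2 * Real.exp (-(β * (v - w))) := by
          field_simp
          ring
        have h3 : 0 ≤ 1 / t * (t * ‖F w‖ - 1) ^ 2 * Real.exp (-(β * (v - w))) := by positivity
        linarith
      rw [integral_const_mul, integral_add (hi2.const_mul t) (hi0.const_mul _), integral_const_mul,
        integral_const_mul, ← hI1, ← hI2] at h1
      have h4 : (1 / t) * ∫ w in Ioc 0 v, Real.exp (-(β * (v - w))) ≤ (1 / t) * (1 / β) := by
        gcongr
      linarith
    have hfin : I1 ^ 2 ≤ (1 / β) * I2 := by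
      rcases hI10.eq_or_lt with h0 | h0
      · rw [← h0]
        have : 0 ≤ (1 / β) * I2 := by positivity
        simpa using this
      · -- take `t = 1 / (β I1)`
        have h1 := key (1 / (β * I1)) (by positivity)
        have h2 : 1 / (1 / (β * I1)) * (1 / β) = I1 := by field_simp
        rw [h2] at h1
        have h3 : I1 ≤ 1 / (β * I1) * I2 := by linarith
        calc I1 ^ 2 = I1 * I1 := sq _
          _ ≤ I1 * (1 / (β * I1) * I2) := by gcongr
          _ = 1 / β * I2 := by field_simp
    calc ‖ek β F v‖ ^ 2 ≤ I1 ^ 2 := by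
          rw [hI1]
          gcongr
      _ ≤ (1 / β) * I2 := hfin
      _ ≤ _ := by gcongr
  have hint : Integrable (Function.uncurry k) ((volume.restrict (Ioc 0 V)).prod (volume.restrict (Ioc 0 V))) := by
    have : IsFiniteMeasure (volume.restrict (Ioc (0:ℝ) V)) := ⟨by simp⟩
    refine Integrable.mono' (g := fun _ => B ^ 2) (integrable_const _) hkm.aestronglyMeasurable ?_
    rw [Measure.prod_restrict]
    refine (ae_restrict_mem (measurableSet_Ioc.prod measurableSet_Ioc)).mono fun p hp => ?_
    show ‖k p.1 p.2‖ ≤ B ^ 2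
    rw [Real.norm_of_nonneg (hk0 p.1 p.2)]
    exact hkB p.1 p.2 hp.2.2
  have hswap := integral_integral_swap hint
  have hinner : ∀ w ∈ Ioc (0:ℝ) V, ∫ v in Ioc 0 V, k v w ≤ (1 / β) * ‖F w‖ ^ 2 := by
    intro w hw
    have h1 : ∫ v in Ioc 0 V, k v w = ∫ v in Ioc 0 V, (Icc w V).indicator
        (fun v => ‖F w‖ ^ 2 * Real.exp (-(β * (v - w)))) v := by
      refine setIntegral_congr_fun measurableSet_Ioc fun v hv => ?_
      rw [hk]
      simp only
      by_cases h : w ≤ v
      · rw [if_pos h, Set.indicator_of_mem (show v ∈ Icc w V from ⟨h, hv.2⟩)]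
      · rw [if_neg h, Set.indicator_of_notMem (fun h2 => h h2.1)]
    rw [h1, setIntegral_indicator measurableSet_Icc]
    have h2 : Ioc 0 V ∩ Icc w V = Icc w V := by
      apply Set.inter_eq_right.2
      intro v hv
      exact ⟨hw.1.trans_le hv.1, hv.2⟩
    rw [h2, integral_const_mul]
    have := int_exp_le hβ hw.2
    have h3 : 0 ≤ ‖F w‖ ^ 2 := by positivity
    nlinarith
  unfold IQ
  have hEad := ek_ad hβ hF
  have h1 : ∫ v in (0:ℝ)..V, ‖ek β F v‖ ^ 2 ≤ ∫ v in (0:ℝ)..V, (1 / β) * ∫ w in Ioc 0 V, k v w := by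
    have hi : IntervalIntegrable (fun v => (1 / β) * ∫ w in Ioc 0 V, k v w) volume 0 V := by
      apply IntervalIntegrable.const_mul
      rw [intervalIntegrable_iff_integrableOn_Ioc_of_le hV]
      exact hint.integral_prod_left
    exact intervalIntegral.integral_mono_on hV (hEad.int_sq 0 V) hi hpt
  refine h1.trans ?_
  rw [intervalIntegral.integral_const_mul, intervalIntegral.integral_of_le hV, hswap]
  have h2 : ∫ w in Ioc 0 V, ∫ v in Ioc 0 V, k v w ≤ ∫ w in Ioc 0 V, (1 / β) * ‖F w‖ ^ 2 := by
    refine setIntegral_mono_on ?_ ?_ measurableSet_Ioc hinner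
    · exact hint.integral_prod_right
    · apply Integrable.const_mul
      have := hF.int_sq 0 V
      rwa [intervalIntegrable_iff_integrableOn_Ioc_of_le hV] at this
  have h4 : ∫ w in Ioc 0 V, (1 / β) * ‖F w‖ ^ 2 = (1 / β) * ∫ v in (0:ℝ)..V, ‖F v‖ ^ 2 := by
    rw [integral_const_mul, intervalIntegral.integral_of_le hV]
  rw [h4] at h2
  have h3 : 0 ≤ 1 / β := by positivity
  calc 1 / β * ∫ w in Ioc 0 V, ∫ v in Ioc 0 V, k v w ≤ 1 / β * (1 / β * ∫ v in (0:ℝ)..V, ‖F v‖ ^ 2) := by
        gcongr
    _ = _ := by ring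

lemma ek_op {β : ℝ} (hβ : 0 < β) : Op (ek β) (fun ρ => 1 / (ρ - 1 / 2 + β)) := by
  have hden : ∀ ρ : ℂ, ρ.re = 1 / 2 → β ≤ ‖ρ - 1 / 2 + β‖ := by
    intro ρ hρ
    have h1 := Complex.re_le_norm (ρ - 1 / 2 + β)
    have h2 : (ρ - 1 / 2 + β).re = β := by
      simp [hρ]
    rwa [h2] at h1
  refine ⟨fun F hF => ek_ad hβ hF, fun F G hF hG => ?_, fun F hF c => ?_,
    ⟨(1 / β) ^ 2, by positivity, fun F hF V hV => ek_bd hβ hF hV⟩, fun ρ hρ => ?_, ⟨1 / β, fun ρ hρ => ?_⟩⟩
  · funext v
    unfold ek
    split_ifs with h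
    · ring
    · rw [← mul_add, ← intervalIntegral.integral_add (Ad.iie hF β 0 v) (Ad.iie hG β 0 v)]
      congr 2
      funext w
      ring
  · funext v
    unfold ek
    split_ifs with h
    · ring
    · have : ∫ w in (0:ℝ)..v, c * F w * Complex.exp (β * w) = c * ∫ w in (0:ℝ)..v, F w * Complex.exp (β * w) := by
        rw [← intervalIntegral.integral_const_mul]
        congr 1
        funext w
        ring
      rw [this]
      ring
  · have hE := E_ad hρ
    have hne : ρ - 1 / 2 + β ≠ 0 := by
      intro h0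
      have := hden ρ hρ
      rw [h0, norm_zero] at this
      linarith
    refine Z0.of_tendsto ((ek_ad hβ hE).sub (Ad.smul hE _)) ?_
    have hlim : Tendsto (fun v : ℝ => -(Complex.exp (-(β * v))) / (ρ - 1 / 2 + β)) atTop (𝓝 0) := by
      have h1 : Tendsto (fun v : ℝ => Complex.exp (-(β * v))) atTop (𝓝 0) := by
        rw [tendsto_zero_iff_norm_tendsto_zero]
        simp_rw [norm_exp_neg_mul_real]
        exact Real.tendsto_exp_neg_atTop_nhds_zero.comp (tendsto_id.const_mul_atTop hβ)
      have h2 := h1.neg.div_const (ρ - 1 / 2 + β)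
      simpa using h2
    refine hlim.congr' ?_
    filter_upwards [eventually_ge_atTop (0:ℝ)] with v hv
    unfold ek
    rw [if_neg (not_lt.2 hv)]
    have h1 : ∫ w in (0:ℝ)..v, E ρ w * Complex.exp (β * w) = ∫ w in (0:ℝ)..v, Complex.exp ((ρ - 1 / 2 + β) * w) := by
      apply intervalIntegral.integral_congr
      intro w hw
      rw [uIcc_of_le hv] at hw
      simp only
      unfold E
      rw [if_neg (not_lt.2 hw.1)]
      unfold Pool.Agent.H295R2.ee
      rw [← Complex.exp_add]
      congr 1
      ring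
    rw [h1, integral_exp_mul_complex hne]
    unfold E
    rw [if_neg (not_lt.2 hv)]
    have h2 : Complex.exp (-(β * v)) * Complex.exp ((ρ - 1 / 2 + β) * v) = ee ρ v := by
      unfold Pool.Agent.H295R2.ee
      rw [← Complex.exp_add]
      congr 1
      ring
    have h3 : Complex.exp (-(β * v)) * ((Complex.exp ((ρ - 1 / 2 + β) * v) -
        Complex.exp ((ρ - 1 / 2 + β) * (0:ℝ))) / (ρ - 1 / 2 + β)) =
        (ee ρ v - Complex.exp (-(β * v))) / (ρ - 1 / 2 + β) := by
      rw [← h2, Complex.ofReal_zero, mul_zero, Complex.exp_zero]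
      ring
    rw [h3]
    ring
  · rw [norm_div, norm_one]
    exact one_div_le_one_div_of_le hβ (hden ρ hρ)

end Pool.Agent.R613.WM
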