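import Pool.Agent.R613.WM.W4

set_option autoImplicit false

/-! # Summatory functions, weights and coprimality conditions -/

namespace Pool.Agent.R613.WM

open MeasureTheory Filter Topology Set
open Pool.Agent.H295R2 (ee)
open H353.FB (mu Mx)
open Pool.Agent.R305.FM (Ad fC fC_ad Ad.sub Ad.int_sq)

/-- `∑_{n ≤ e^v} a(n)` -/
noncomputable def Ms (a : ℕ → ℝ) (v : ℝ) : ℝ := ∑ n ∈ Finset.Icc 1 ⌊Real.exp v⌋₊, a n

/-- `e^{cv} ∑_{n ≤ e^v} a(n)` -/
noncomputable def gf (a : ℕ → ℝ) (c : ℝ) (v : ℝ) : ℂ := ((Ms a v * Real.exp (c * v) : ℝ) : ℂ)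

lemma Ms_neg (a : ℕ → ℝ) {v : ℝ} (hv : v < 0) : Ms a v = 0 := by
  unfold Ms
  have : ⌊Real.exp v⌋₊ = 0 := by
    rw [Nat.floor_eq_zero]
    have := Real.exp_lt_exp.2 hv
    rwa [Real.exp_zero] at this
  rw [this]
  simp

lemma Ms_congr {a b : ℕ → ℝ} (h : ∀ n : ℕ, 1 ≤ n → a n = b n) : Ms a = Ms b := by
  funext v
  unfold Ms
  exact Finset.sum_congr rfl fun n hn => h n (Finset.mem_Icc.1 hn).1

lemma gf_congr {a b : ℕ → ℝ} (h : ∀ n : ℕ, 1 ≤ n → a n = b n) (c : ℝ) : gf a c = gf b c := by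
  unfold gf
  rw [Ms_congr h]

lemma Ms_meas (a : ℕ → ℝ) : Measurable (Ms a) := by
  have e : Ms a = (fun n : ℕ => ∑ k ∈ Finset.Icc 1 n, a k) ∘ fun v : ℝ => ⌊Real.exp v⌋₊ := rfl
  rw [e]
  exact (measurable_of_countable _).comp (Nat.measurable_floor.comp Real.measurable_exp)

lemma gf_ad (a : ℕ → ℝ) (c : ℝ) : Ad (gf a c) := by
  refine ⟨?_, fun v hv => by unfold gf; rw [Ms_neg a hv]; simp, fun V => ?_⟩
  · exact Complex.measurable_ofReal.comp ((Ms_meas a).mul (by fun_prop))
  · refine ⟨(∑ n ∈ Finset.Icc 1 ⌊Real.exp V⌋₊, |a n|) * Real.exp (|c| * |V|), by positivity, fun v hv => ?_⟩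
    unfold gf
    rw [Complex.norm_real, Real.norm_eq_abs, abs_mul, abs_of_pos (Real.exp_pos _)]
    rcases lt_or_ge v 0 with h | h
    · rw [Ms_neg a h]
      simp only [abs_zero, zero_mul]
      positivity
    · apply mul_le_mul _ _ (Real.exp_pos _).le (by positivity)
      · unfold Ms
        refine (Finset.abs_sum_le_sum_abs _ _).trans ?_
        refine Finset.sum_le_sum_of_subset_of_nonneg ?_ fun _ _ _ => abs_nonneg _
        exact Finset.Icc_subset_Icc_right (Nat.floor_le_floor (Real.exp_le_exp.2 hv))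
      · apply Real.exp_le_exp.2
        have h1 : c * v ≤ |c| * |v| := by
          rw [← abs_mul]
          exact le_abs_self _
        have h2 : |v| ≤ |V| := by
          rw [abs_of_nonneg h, abs_of_nonneg (h.trans hv)]
          exact hv
        exact h1.trans (mul_le_mul_of_nonneg_left h2 (abs_nonneg c))

lemma Ms_eq (a : ℕ → ℝ) {v w : ℝ} (h : w ≤ v) :
    Ms a w = ∑ n ∈ Finset.Icc 1 ⌊Real.exp v⌋₊, if Real.log n ≤ w then a n else 0 := by
  unfold Ms
  rw [← Finset.sum_filter]
  apply Finset.sum_congr _ fun _ _ => rfl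
  ext n
  simp only [Finset.mem_filter, Finset.mem_Icc]
  constructor
  · rintro ⟨h1, h2⟩
    have h3 : (n : ℝ) ≤ Real.exp w := (Nat.le_floor_iff (Real.exp_pos w).le).1 h2
    refine ⟨⟨h1, Nat.le_floor (h3.trans (Real.exp_le_exp.2 h))⟩, ?_⟩
    rw [Real.log_le_iff_le_exp (by exact_mod_cast h1)]
    exact h3
  · rintro ⟨⟨h1, _⟩, h3⟩
    rw [Real.log_le_iff_le_exp (by exact_mod_cast h1)] at h3
    exact ⟨h1, Nat.le_floor h3⟩

lemma int_ind (κ : ℝ) {L v : ℝ} (hL : 0 ≤ L) (hLv : L ≤ v) :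
    IntervalIntegrable (fun w : ℝ => if L ≤ w then Real.exp (κ * w) else 0) volume 0 v ∧
    κ * (∫ w in (0:ℝ)..v, if L ≤ w then Real.exp (κ * w) else 0) = Real.exp (κ * v) - Real.exp (κ * L) := by
  have hm : Measurable (fun w : ℝ => if L ≤ w then Real.exp (κ * w) else 0) :=
    Measurable.ite measurableSet_Ici (by fun_prop) measurable_const
  have hii : ∀ a b : ℝ, IntervalIntegrable (fun w : ℝ => if L ≤ w then Real.exp (κ * w) else 0) volume a b := by
    intro a b
    have h1 : IntervalIntegrable (fun w : ℝ => Real.exp (κ * w)) volume a b :=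
      Continuous.intervalIntegrable (by fun_prop) _ _
    refine h1.mono_fun hm.aestronglyMeasurable (Eventually.of_forall fun w => ?_)
    simp only
    split_ifs
    · exact le_rfl
    · rw [norm_zero]
      positivity
  refine ⟨hii 0 v, ?_⟩
  rw [← intervalIntegral.integral_add_adjacent_intervals (hii 0 L) (hii L v)]
  have h1 : ∫ w in (0:ℝ)..L, (if L ≤ w then Real.exp (κ * w) else 0) = 0 := by
    rw [intervalIntegral.integral_of_le hL, integral_Ioc_eq_integral_Ioo]
    have : ∀ w ∈ Ioo (0:ℝ) L, (if L ≤ w then Real.exp (κ * w) else 0) = 0 := by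
      intro w hw
      rw [if_neg (not_le.2 hw.2)]
    rw [setIntegral_congr_fun measurableSet_Ioo this]
    simp
  have h2 : ∫ w in L..v, (if L ≤ w then Real.exp (κ * w) else 0) = ∫ w in L..v, Real.exp (κ * w) := by
    apply intervalIntegral.integral_congr
    intro w hw
    rw [uIcc_of_le hLv] at hw
    simp only
    rw [if_pos hw.1]
  rw [h1, h2, zero_add, ← intervalIntegral.integral_const_mul]
  have h3 : ∀ w : ℝ, HasDerivAt (fun w => Real.exp (κ * w)) (κ * Real.exp (κ * w)) w := by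
    intro w
    have := ((hasDerivAt_id w).const_mul κ).exp
    simp only [id, mul_one] at this
    rw [mul_comm]
    exact this
  exact intervalIntegral.integral_eq_sub_of_hasDerivAt (fun w _ => h3 w)
    (Continuous.intervalIntegrable (by fun_prop) _ _)

/-- Abel summation -/
lemma abel (a : ℕ → ℝ) (κ : ℝ) {v : ℝ} (hv : 0 ≤ v) : Ms (fun n => a n * (n : ℝ) ^ κ) v =
    Real.exp (κ * v) * Ms a v - κ * ∫ w in (0:ℝ)..v, Ms a w * Real.exp (κ * w) := by
  have hlog : ∀ n ∈ Finset.Icc 1 ⌊Real.exp v⌋₊, 0 ≤ Real.log n ∧ Real.log n ≤ v := by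
    intro n hn
    rw [Finset.mem_Icc] at hn
    refine ⟨Real.log_nonneg (by exact_mod_cast hn.1), ?_⟩
    rw [Real.log_le_iff_le_exp (by exact_mod_cast hn.1)]
    exact (Nat.le_floor_iff (Real.exp_pos v).le).1 hn.2
  have h1 : ∫ w in (0:ℝ)..v, Ms a w * Real.exp (κ * w) =
      ∑ n ∈ Finset.Icc 1 ⌊Real.exp v⌋₊, a n * ∫ w in (0:ℝ)..v, if Real.log n ≤ w then Real.exp (κ * w) else 0 := by
    have e1 : ∫ w in (0:ℝ)..v, Ms a w * Real.exp (κ * w) = ∫ w in (0:ℝ)..v,
        ∑ n ∈ Finset.Icc 1 ⌊Real.exp v⌋₊, a n * (if Real.log n ≤ w then Real.exp (κ * w) else 0) := by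
      apply intervalIntegral.integral_congr
      intro w hw
      rw [uIcc_of_le hv] at hw
      simp only
      rw [Ms_eq a hw.2, Finset.sum_mul]
      refine Finset.sum_congr rfl fun n _ => ?_
      split_ifs <;> ring
    rw [e1, intervalIntegral.integral_finsetSum]
    · refine Finset.sum_congr rfl fun n _ => ?_
      rw [intervalIntegral.integral_const_mul]
    · intro n hn
      exact (int_ind κ (hlog n hn).1 (hlog n hn).2).1.const_mul _
  rw [h1, Finset.mul_sum]
  unfold Ms
  rw [Finset.mul_sum, ← Finset.sum_sub_distrib]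
  refine Finset.sum_congr rfl fun n hn => ?_
  have h2 := (int_ind κ (hlog n hn).1 (hlog n hn).2).2
  have h3 : (n : ℝ) ^ κ = Real.exp (κ * Real.log n) := by
    rw [Real.rpow_def_of_pos (by exact_mod_cast (Finset.mem_Icc.1 hn).1), mul_comm]
  show a n * (n : ℝ) ^ κ = _
  rw [h3]
  have h4 : κ * (a n * ∫ w in (0:ℝ)..v, if Real.log n ≤ w then Real.exp (κ * w) else 0) =
      a n * (κ * ∫ w in (0:ℝ)..v, if Real.log n ≤ w then Real.exp (κ * w) else 0) := by ring
  rw [h4, h2]
  ring

lemma gf_weight (a : ℕ → ℝ) (κ c : ℝ) :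
    gf (fun n => a n * (n : ℝ) ^ κ) (c - κ) = fun v => gf a c v + (-(κ : ℂ)) * ek (κ - c) (gf a c) v := by
  funext v
  rcases lt_or_ge v 0 with h | h
  · unfold gf ek
    rw [Ms_neg _ h, Ms_neg _ h, if_pos h]
    simp
  · unfold ek
    rw [if_neg (not_lt.2 h)]
    have h1 : ∫ w in (0:ℝ)..v, gf a c w * Complex.exp (((κ - c : ℝ) : ℂ) * w) =
        ((∫ w in (0:ℝ)..v, Ms a w * Real.exp (κ * w) : ℝ) : ℂ) := by
      rw [← intervalIntegral.integral_ofReal]
      apply intervalIntegral.integral_congr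
      intro w _
      simp only
      unfold gf
      have : Real.exp (κ * w) = Real.exp (c * w) * Real.exp ((κ - c) * w) := by
        rw [← Real.exp_add]
        congr 1
        ring
      rw [this]
      push_cast
      ring
    rw [h1]
    unfold gf
    rw [abel a κ h]
    have e1 : Real.exp (κ * v) * Real.exp ((c - κ) * v) = Real.exp (c * v) := by
      rw [← Real.exp_add]
      congr 1
      ring
    have e2 : Complex.exp (-(((κ - c : ℝ) : ℂ) * v)) = ((Real.exp ((c - κ) * v) : ℝ) : ℂ) := by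
      push_cast
      congr 1
      ring
    rw [e2, ← e1]
    push_cast
    ring

/-! ## coprimality -/

open Classical in
/-- `μ(n)` for `n` without prime factors in `P`, and `0` otherwise -/
noncomputable def muP (P : Finset ℕ) (n : ℕ) : ℝ := if ∀ p ∈ P, ¬ p ∣ n then mu n else 0

lemma mu_prime_mul {p k : ℕ} (hp : p.Prime) : mu (p * k) = if p ∣ k then 0 else - mu k := by
  unfold H353.FB.mu
  split_ifs with h
  · obtain ⟨j, rfl⟩ := h
    have : ¬ Squarefree (p * (p * j)) := by
      intro hs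
      have h2 := hs p ⟨j, by ring⟩
      exact hp.one_lt.ne' (Nat.isUnit_iff.1 h2)
    rw [ArithmeticFunction.moebius_eq_zero_of_not_squarefree this]
    simp
  · have hc : Nat.Coprime p k := (Nat.Prime.coprime_iff_not_dvd hp).2 h
    rw [ArithmeticFunction.isMultiplicative_moebius.map_mul_of_coprime hc,
      ArithmeticFunction.moebius_apply_prime hp]
    push_cast
    ring

lemma muP_step {P : Finset ℕ} (hP : ∀ p ∈ P, p.Prime) {p : ℕ} (hp : p.Prime) (hpP : p ∉ P) (v : ℝ) :
    Ms (muP P) v = Ms (muP (insert p P)) v - Ms (muP (insert p P)) (v - Real.log p) := by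
  classical
  have hp0 : (0:ℝ) < p := by exact_mod_cast hp.pos
  unfold Ms
  have hfl : ⌊Real.exp (v - Real.log p)⌋₊ = ⌊Real.exp v⌋₊ / p := by
    rw [Real.exp_sub, Real.exp_log hp0, Nat.floor_div_natCast]
  rw [hfl]
  obtain ⟨N, hN⟩ : ∃ N : ℕ, N = ⌊Real.exp v⌋₊ := ⟨_, rfl⟩
  rw [← hN]
  rw [← Finset.sum_filter_add_sum_filter_not (Finset.Icc 1 N) (fun n => ¬ p ∣ n) (muP P), sub_eq_add_neg]
  congr 1
  · rw [Finset.sum_filter]
    refine Finset.sum_congr rfl fun n _ => ?_
    unfold muP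
    by_cases h1 : p ∣ n
    · simp [h1]
    · by_cases h2 : ∀ p ∈ P, ¬ p ∣ n
      · rw [if_pos h1, if_pos h2, if_pos]
        intro q hq
        rcases Finset.mem_insert.1 hq with rfl | hq
        · exact h1
        · exact h2 q hq
      · rw [if_pos h1, if_neg h2, if_neg]
        intro h3
        exact h2 fun q hq => h3 q (Finset.mem_insert_of_mem hq)
  · rw [← Finset.sum_neg_distrib]
    symm
    refine Finset.sum_nbij' (fun k => p * k) (fun n => n / p) ?_ ?_ ?_ ?_ ?_
    · intro k hk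
      rw [Finset.mem_Icc, Nat.le_div_iff_mul_le hp.pos] at hk
      rw [Finset.mem_filter, Finset.mem_Icc, not_not]
      refine ⟨⟨Nat.mul_pos hp.pos hk.1, ?_⟩, dvd_mul_right p k⟩
      rw [mul_comm]
      exact hk.2
    · intro n hn
      rw [Finset.mem_filter, Finset.mem_Icc, not_not] at hn
      obtain ⟨⟨h1, h2⟩, ⟨k, rfl⟩⟩ := hn
      rw [Nat.mul_div_cancel_left k hp.pos, Finset.mem_Icc, Nat.le_div_iff_mul_le hp.pos, mul_comm]
      exact ⟨Nat.pos_of_ne_zero (by rintro rfl; simp at h1), h2⟩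
    · intro k _
      exact Nat.mul_div_cancel_left k hp.pos
    · intro n hn
      rw [Finset.mem_filter, not_not] at hn
      exact Nat.mul_div_cancel' hn.2
    · intro k _
      unfold muP
      have hdv : (∀ q ∈ P, ¬ q ∣ p * k) ↔ ∀ q ∈ P, ¬ q ∣ k := by
        constructor
        · intro h q hq hk
          exact h q hq (hk.mul_left p)
        · intro h q hq hk
          rcases (hP q hq).dvd_mul.1 hk with h1 | h1
          · have := (Nat.prime_dvd_prime_iff_eq (hP q hq) hp).1 h1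
            rw [this] at hq
            exact hpP hq
          · exact h q hq h1
      rw [mu_prime_mul hp]
      by_cases h1 : p ∣ k
      · rw [if_neg (fun h3 => h3 p (Finset.mem_insert_self _ _) h1)]
        simp [h1]
      · by_cases h2 : ∀ q ∈ P, ¬ q ∣ k
        · rw [if_pos (hdv.2 h2), if_neg h1, if_pos]
          intro q hq
          rcases Finset.mem_insert.1 hq with rfl | hq
          · exact h1
          · exact h2 q hq
        · rw [if_neg (fun h3 => h2 (hdv.1 h3)), if_neg (fun h3 => h2 fun q hq =>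
            h3 q (Finset.mem_insert_of_mem hq))]
          simp

lemma gf_shift (a : ℕ → ℝ) (c v L : ℝ) : ((Ms a (v - L) * Real.exp (c * v) : ℝ) : ℂ) =
    ((Real.exp (c * L) : ℝ) : ℂ) * gf a c (v - L) := by
  unfold gf
  have : Real.exp (c * v) = Real.exp (c * L) * Real.exp (c * (v - L)) := by
    rw [← Real.exp_add]
    congr 1
    ring
  rw [this]
  push_cast
  ring

lemma gf_block (a : ℕ → ℝ) (c L : ℝ) :
    (fun v => (((Ms a v - Ms a (v - L)) * Real.exp (c * v) : ℝ) : ℂ)) = om (Real.exp (c * L)) L (gf a c) := by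
  funext v
  unfold om
  rw [← gf_shift]
  unfold gf
  push_cast
  ring

end Pool.Agent.R613.WM
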