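import Pool.Agent.R613.WM.W5
import Pool.Agent.R305.FM.F5

set_option autoImplicit false

/-! # Invertible operators and the law of the mean square -/

namespace Pool.Agent.R613.WM

open MeasureTheory Filter Topology Set
open Pool.Agent.H295R2 (ee)
open Pool.Agent.W120.WM (ZC NT)
open H353.FB (mu Mx)
open Pool.Agent.R305.FM (Ad fC fC_ad Ad.sub Ad.int_sq subst_exp)

/-- a function obtained from `fC` by an invertible operator -/
structure Good (G : ℝ → ℂ) (m : ℂ → ℂ) : Prop where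
  ad : Ad G
  op : ∃ T : (ℝ → ℂ) → ℝ → ℂ, Op T m ∧ T fC = G
  low : ∃ K : ℝ, 0 < K ∧ ∀ V : ℝ, 0 ≤ V → IQ fC V ≤ K * IQ G V
  ne : ∀ ρ : ℂ, ρ.re = 1 / 2 → m ρ ≠ 0

namespace Good

variable {G : ℝ → ℂ} {m : ℂ → ℂ}

lemma base : Good fC (fun _ => 1) :=
  ⟨fC_ad, ⟨_, Op.one, rfl⟩, ⟨1, one_pos, fun V _ => by rw [one_mul]⟩, fun _ _ => one_ne_zero⟩

/-- applying an operator with a left inverse -/
lemma step (h : Good G m) {T S : (ℝ → ℂ) → ℝ → ℂ} {m' m'' : ℂ → ℂ} (hT : Op T m') (hS : Op S m'')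
    (hinv : S (T G) = G) (hne : ∀ ρ : ℂ, ρ.re = 1 / 2 → m' ρ ≠ 0) : Good (T G) (fun ρ => m' ρ * m ρ) := by
  obtain ⟨T0, hT0, hG⟩ := h.op
  refine ⟨hT.ad G h.ad, ⟨fun F => T (T0 F), hT.comp hT0, ?_⟩, ?_, fun ρ hρ => mul_ne_zero (hne ρ hρ) (h.ne ρ hρ)⟩
  · show T (T0 fC) = T G
    rw [hG]
  · obtain ⟨K, hK, hKb⟩ := h.low
    obtain ⟨K', hK', hKb'⟩ := hS.bd
    refine ⟨K * (K' + 1), by positivity, fun V hV => ?_⟩
    have h1 := hKb V hV
    have h2 := hKb' (T G) (hT.ad G h.ad) V hV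
    rw [hinv] at h2
    have h3 := IQ_nonneg (T G) hV
    calc IQ fC V ≤ K * IQ G V := h1
      _ ≤ K * (K' * IQ (T G) V) := by gcongr
      _ ≤ K * ((K' + 1) * IQ (T G) V) := by
        gcongr
        linarith
      _ = _ := by ring

lemma ge (h : Good G m) {r L : ℝ} (hr : 0 ≤ r) (hr1 : r < 1) (hL : 0 < L) :
    Good (ge r L G) (fun ρ => (omm r L ρ)⁻¹ * m ρ) := by
  refine h.step (ge_op hr hr1 hL) (om_op r hL.le) (om_ge hL h.ad) fun ρ hρ => ?_
  apply inv_ne_zero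
  intro h0
  have := omm_ge (L := L) hr hρ
  rw [h0, norm_zero] at this
  linarith

lemma om (h : Good G m) {r L : ℝ} (hr : 0 ≤ r) (hr1 : r < 1) (hL : 0 < L) :
    Good (om r L G) (fun ρ => omm r L ρ * m ρ) := by
  refine h.step (om_op r hL.le) (ge_op hr hr1 hL) (ge_om hL h.ad) fun ρ hρ => ?_
  intro h0
  have := omm_ge (L := L) hr hρ
  rw [h0, norm_zero] at this
  linarith

end Good

/-- `F + c · ek β F` -/
noncomputable def wo (c : ℂ) (β : ℝ) (F : ℝ → ℂ) (v : ℝ) : ℂ := F v + c * ek β F v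

lemma wo_op (c : ℂ) {β : ℝ} (hβ : 0 < β) : Op (wo c β) (fun ρ => 1 + c * (1 / (ρ - 1 / 2 + β))) := by
  have h := Op.one.lin (ek_op hβ) 1 c
  have e1 : (fun (F : ℝ → ℂ) v => (1:ℂ) * F v + c * ek β F v) = wo c β := by
    funext F v
    unfold wo
    ring
  have e2 : (fun ρ : ℂ => (1:ℂ) * 1 + c * (1 / (ρ - 1 / 2 + β))) = fun ρ => 1 + c * (1 / (ρ - 1 / 2 + β)) := by
    funext ρ
    ring
  rw [e1, e2] at h
  exact h

lemma fC_eq : fC = gf mu (-(1 / 2)) := by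
  funext v
  unfold Pool.Agent.R305.FM.fC gf
  have : Real.exp (-(v / 2)) = Real.exp (-(1 / 2) * v) := by
    congr 1
    ring
  rw [this]
  rfl

lemma muP_empty : gf (muP ∅) (-(1 / 2)) = fC := by
  rw [fC_eq]
  apply gf_congr
  intro n _
  unfold muP
  simp

/-- the Euler factors at the primes of `P` -/
noncomputable def eP (P : Finset ℕ) (ρ : ℂ) : ℂ :=
  ∏ p ∈ P, (omm (Real.exp (-(1 / 2) * Real.log p)) (Real.log p) ρ)⁻¹

theorem good_P (P : Finset ℕ) (hP : ∀ p ∈ P, p.Prime) : Good (gf (muP P) (-(1 / 2))) (eP P) := by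
  classical
  induction P using Finset.induction_on with
  | empty =>
    rw [muP_empty]
    have : eP ∅ = fun _ => 1 := by
      funext ρ
      unfold eP
      simp
    rw [this]
    exact Good.base
  | insert p P hpP ih =>
    have hP' : ∀ q ∈ P, q.Prime := fun q hq => hP q (Finset.mem_insert_of_mem hq)
    have hp : p.Prime := hP p (Finset.mem_insert_self _ _)
    have hL : 0 < Real.log p := Real.log_pos (by exact_mod_cast hp.one_lt)
    have hr1 : Real.exp (-(1 / 2) * Real.log p) < 1 := by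
      rw [Real.exp_lt_one_iff]
      linarith
    have h1 : gf (muP P) (-(1 / 2)) =
        om (Real.exp (-(1 / 2) * Real.log p)) (Real.log p) (gf (muP (insert p P)) (-(1 / 2))) := by
      rw [← gf_block]
      funext v
      unfold gf
      rw [muP_step hP' hp hpP]
    have h2 : gf (muP (insert p P)) (-(1 / 2)) =
        Pool.Agent.R613.WM.ge (Real.exp (-(1 / 2) * Real.log p)) (Real.log p) (gf (muP P) (-(1 / 2))) := by
      rw [h1, ge_om hL (gf_ad _ _)]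
    rw [h2]
    have h3 : eP (insert p P) = fun ρ => (omm (Real.exp (-(1 / 2) * Real.log p)) (Real.log p) ρ)⁻¹ * eP P ρ := by
      funext ρ
      unfold eP
      rw [Finset.prod_insert hpP]
    rw [h3]
    exact (ih hP').ge (Real.exp_pos _).le hr1 hL

/-- the weighted function -/
noncomputable def bP (P : Finset ℕ) (α : ℝ) (n : ℕ) : ℝ := muP P n * (n : ℝ) ^ (-α)

/-- its multiplier -/
noncomputable def mP (P : Finset ℕ) (α : ℝ) (ρ : ℂ) : ℂ :=
  (1 + (α : ℂ) * (1 / (ρ - 1 / 2 + ((1 / 2 - α : ℝ) : ℂ)))) * eP P ρ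

lemma fac_eq {α : ℝ} (hα : α < 1 / 2) {ρ : ℂ} (hρ : ρ.re = 1 / 2) :
    1 + (α : ℂ) * (1 / (ρ - 1 / 2 + ((1 / 2 - α : ℝ) : ℂ))) = ρ / (ρ - α) := by
  have h1 : ρ - α ≠ 0 := by
    intro h0
    have := congrArg Complex.re h0
    simp [hρ] at this
    linarith
  have h2 : ρ - 1 / 2 + ((1 / 2 - α : ℝ) : ℂ) = ρ - α := by
    push_cast
    ring
  rw [h2]
  field_simp
  ring

theorem good_b (P : Finset ℕ) (hP : ∀ p ∈ P, p.Prime) {α : ℝ} (hα : α < 1 / 2) :
    Good (gf (bP P α) (α - 1 / 2)) (mP P α) := by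
  have h0 := good_P P hP
  have e1 : gf (bP P α) (α - 1 / 2) = wo (α : ℂ) (1 / 2 - α) (gf (muP P) (-(1 / 2))) := by
    have h1 := gf_weight (muP P) (-α) (-(1 / 2))
    have h2 : -(1 / 2) - -α = α - 1 / 2 := by ring
    have h3 : -α - -(1 / 2) = 1 / 2 - α := by ring
    rw [h2, h3] at h1
    unfold wo
    have h4 : (fun n : ℕ => muP P n * (n : ℝ) ^ (-α)) = bP P α := rfl
    rw [← h4, h1]
    funext v
    push_cast
    ring
  have e2 : gf (muP P) (-(1 / 2)) = wo (-(α : ℂ)) (1 / 2) (gf (bP P α) (α - 1 / 2)) := by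
    have h1 := gf_weight (bP P α) α (α - 1 / 2)
    have h2 : α - 1 / 2 - α = -(1 / 2) := by ring
    have h3 : α - (α - 1 / 2) = 1 / 2 := by ring
    rw [h2, h3] at h1
    have h4 : gf (fun n : ℕ => bP P α n * (n : ℝ) ^ α) (-(1 / 2)) = gf (muP P) (-(1 / 2)) := by
      apply gf_congr
      intro n hn
      unfold bP
      have hn0 : (0 : ℝ) < n := by exact_mod_cast hn
      rw [mul_assoc, ← Real.rpow_add hn0, neg_add_cancel, Real.rpow_zero, mul_one]
    rw [← h4, h1]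
    rfl
  rw [e1]
  refine h0.step (wo_op (α : ℂ) (β := 1 / 2 - α) (by linarith)) (wo_op (-(α : ℂ)) (β := 1 / 2) (by norm_num)) ?_ ?_
  · rw [← e1, ← e2]
  · intro ρ hρ
    rw [fac_eq hα hρ]
    apply div_ne_zero
    · rintro rfl
      simp at hρ
    · intro h0
      have := congrArg Complex.re h0
      simp [hρ] at this
      linarith

theorem good_blk (P : Finset ℕ) (hP : ∀ p ∈ P, p.Prime) {α : ℝ} (hα : α < 1 / 2) {L : ℝ} (hL : 0 < L) :
    Good (om (Real.exp ((α - 1 / 2) * L)) L (gf (bP P α) (α - 1 / 2)))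
      (fun ρ => omm (Real.exp ((α - 1 / 2) * L)) L ρ * mP P α ρ) := by
  refine (good_b P hP hα).om (Real.exp_pos _).le ?_ hL
  rw [Real.exp_lt_one_iff]
  have : 0 < 1 / 2 - α := by linarith
  nlinarith

/-! ## the law -/

lemma IQ_mono {G : ℝ → ℂ} (hG : Ad G) {V W : ℝ} (h : V ≤ W) : IQ G V ≤ IQ G W := by
  unfold IQ
  rw [← intervalIntegral.integral_add_adjacent_intervals (hG.int_sq 0 V) (hG.int_sq V W)]
  have : 0 ≤ ∫ v in V..W, ‖G v‖ ^ 2 := intervalIntegral.integral_nonneg h fun v _ => by positivity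
  linarith

/-- the statement for `I` -/
def LawI (I : ℝ → ℝ) (S : ℝ) : Prop :=
  (ZC ↔ ∃ C : ℝ, ∀ x : ℝ, 2 ≤ x → I x ≤ C * Real.log x) ∧
  (ZC ↔ ∃ C : ℝ, ∃ᶠ x : ℝ in atTop, I x ≤ C * Real.log x) ∧
  (ZC → Tendsto (fun x : ℝ => I x / Real.log x) atTop (𝓝 S)) ∧
  (¬ ZC → Tendsto (fun x : ℝ => I x / Real.log x) atTop atTop)

theorem law_gen {I : ℝ → ℝ} {G : ℝ → ℂ} {S : ℝ} (hG : Ad G) (hI : ∀ x : ℝ, 1 ≤ x → I x = IQ G (Real.log x))
    (h1 : ZC → Tendsto (fun V : ℝ => IQ G V / V) atTop (𝓝 S))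
    (h2 : ¬ ZC → Tendsto (fun V : ℝ => IQ G V / V) atTop atTop) : LawI I S := by
  have l1 : ZC → Tendsto (fun x : ℝ => I x / Real.log x) atTop (𝓝 S) := by
    intro hZ
    refine ((h1 hZ).comp Real.tendsto_log_atTop).congr' ?_
    filter_upwards [eventually_ge_atTop (1:ℝ)] with x hx
    simp only [Function.comp]
    rw [hI x hx]
  have l2 : ¬ ZC → Tendsto (fun x : ℝ => I x / Real.log x) atTop atTop := by
    intro hZ
    refine ((h2 hZ).comp Real.tendsto_log_atTop).congr' ?_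
    filter_upwards [eventually_ge_atTop (1:ℝ)] with x hx
    simp only [Function.comp]
    rw [hI x hx]
  have e1 : (∃ C : ℝ, ∀ x : ℝ, 2 ≤ x → I x ≤ C * Real.log x) → ∃ C : ℝ, ∃ᶠ x : ℝ in atTop, I x ≤ C * Real.log x := by
    rintro ⟨C, hC⟩
    exact ⟨C, (eventually_atTop.2 ⟨2, hC⟩).frequently⟩
  have e2 : (∃ C : ℝ, ∃ᶠ x : ℝ in atTop, I x ≤ C * Real.log x) → ZC := by
    rintro ⟨C, hC⟩
    by_contra hZ
    have h1 := (l2 hZ).eventually (eventually_gt_atTop C)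
    obtain ⟨x, h2, h3, h4⟩ := (hC.and_eventually (h1.and (eventually_gt_atTop (1:ℝ)))).exists
    have : 0 < Real.log x := Real.log_pos h4
    rw [lt_div_iff₀ this] at h3
    linarith
  have e3 : ZC → ∃ C : ℝ, ∀ x : ℝ, 2 ≤ x → I x ≤ C * Real.log x := by
    intro hZ
    obtain ⟨x0, hx0⟩ := eventually_atTop.1 ((l1 hZ).eventually (gt_mem_nhds (lt_add_one S)))
    obtain ⟨X, hX⟩ : ∃ X : ℝ, X = max x0 2 := ⟨_, rfl⟩
    have hX2 : 2 ≤ X := by rw [hX]; exact le_max_right _ _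
    have hX0 : x0 ≤ X := by rw [hX]; exact le_max_left _ _
    obtain ⟨B, hB⟩ : ∃ B : ℝ, B = IQ G (Real.log X) := ⟨_, rfl⟩
    have hB0 : 0 ≤ B := by
      rw [hB]
      exact IQ_nonneg G (Real.log_nonneg (by linarith))
    have hl2 : 0 < Real.log 2 := Real.log_pos (by norm_num)
    refine ⟨|S + 1| + B / Real.log 2, fun x hx => ?_⟩
    have hlx : Real.log 2 ≤ Real.log x := Real.log_le_log (by norm_num) hx
    have hlx0 : 0 < Real.log x := by linarith
    rcases le_or_gt X x with h | h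
    · have h2 := hx0 x (hX0.trans h)
      rw [div_lt_iff₀ hlx0] at h2
      have h3 : (S + 1) * Real.log x ≤ |S + 1| * Real.log x := by
        gcongr
        exact le_abs_self _
      have h4 : 0 ≤ B / Real.log 2 * Real.log x := by positivity
      nlinarith
    · rw [hI x (by linarith)]
      have h2 : IQ G (Real.log x) ≤ B := by
        rw [hB]
        exact IQ_mono hG (Real.log_le_log (by linarith) h.le)
      have h3 : B ≤ B / Real.log 2 * Real.log x := by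
        rw [div_mul_eq_mul_div, le_div_iff₀ hl2]
        gcongr
      have h4 : 0 ≤ |S + 1| * Real.log x := by positivity
      nlinarith
  exact ⟨⟨e3, fun h => e2 (e1 h)⟩, ⟨fun h => e1 (e3 h), e2⟩, l1, l2⟩

theorem law_good {I : ℝ → ℝ} {G : ℝ → ℂ} {m : ℂ → ℂ} (h : Good G m)
    (hI : ∀ x : ℝ, 1 ≤ x → I x = IQ G (Real.log x)) : LawI I (SM m) ∧
    (ZC → Summable (fun ρ : NT => ‖m ρ‖ ^ 2 / ‖(ρ : ℂ) * deriv riemannZeta ρ‖ ^ 2) ∧ 0 < SM m) := by
  obtain ⟨T, hT, hTG⟩ := h.op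
  obtain ⟨K, hK, hKb⟩ := h.low
  refine ⟨law_gen h.ad hI (fun hZ => ?_) (fun hZ => top_T hZ hK hKb), fun hZ => ⟨SM_summable hZ hT, ?_⟩⟩
  · have := lim_T hZ hT
    rwa [hTG] at this
  · obtain ⟨ρ, hρ⟩ := Pool.Agent.TH223.AP.exists_zero
    have h1 := hZ.1 ρ hρ
    have h3 : ρ ≠ 0 := by
      rintro rfl
      simp at h1
    have h4 : 0 < ‖m ρ‖ := norm_pos_iff.2 (h.ne ρ h1.1)
    have h5 : 0 < ‖ρ * deriv riemannZeta ρ‖ := norm_pos_iff.2 (mul_ne_zero h3 h1.2)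
    exact (SM_summable hZ hT).tsum_pos (fun _ => by positivity) ⟨ρ, hρ⟩ (by positivity)

/-- the substitution `u = e^v` -/
lemma int_IQ {F : ℝ → ℝ} {G : ℝ → ℂ} (h : ∀ v : ℝ, 0 ≤ v → Real.exp v * F (Real.exp v) ^ 2 = ‖G v‖ ^ 2)
    {x : ℝ} (hx : 1 ≤ x) : ∫ u in (1:ℝ)..x, F u ^ 2 = IQ G (Real.log x) := by
  rw [subst_exp (fun u => F u ^ 2) hx]
  unfold IQ
  apply intervalIntegral.integral_congr
  intro v hv
  rw [uIcc_of_le (Real.log_nonneg hx)] at hv
  exact h v hv.1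

end Pool.Agent.R613.WM
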