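import Pool.Agent.R613.WM.W6

set_option autoImplicit false

/-! # Proportional windows and the second negative moment of `ζ'` at the zeros -/

namespace Pool.Agent.R613.WM

open MeasureTheory Filter Topology Set
open Pool.Agent.H295R2 (ee)
open Pool.Agent.W120.WM (ZC NT)
open H353.FB (mu Mx)
open Pool.Agent.R305.FM (Ad fC fC_ad Ad.sub Ad.int_sq subst_exp)

/-- RH, simplicity of the zeros, and `∑_{|γ| ≤ T} 1 / |ζ'(ρ)|² ≪ T` -/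
def GH : Prop := (∀ ρ ∈ NT, ρ.re = 1 / 2 ∧ deriv riemannZeta ρ ≠ 0) ∧
  ∃ C : ℝ, 0 ≤ C ∧ ∀ T : ℝ, 1 ≤ T → ∀ Z : Finset ℂ, (∀ ρ ∈ Z, ρ ∈ NT ∧ |ρ.im| ≤ T) →
    ∑ ρ ∈ Z, 1 / ‖deriv riemannZeta ρ‖ ^ 2 ≤ C * T

/-- the multiplier of the block with ratio `e^{-L}` -/
noncomputable def mB (L : ℝ) (ρ : ℂ) : ℂ := 1 - Complex.exp (-(L * ρ))

lemma omm_mB (L : ℝ) (ρ : ℂ) : omm (Real.exp (-(1 / 2) * L)) L ρ = mB L ρ := by
  unfold omm mB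
  rw [Complex.ofReal_exp, ← Complex.exp_add]
  congr 2
  push_cast
  ring

/-- the dyadic inequality -/
lemma dyadic {ε r : ℝ} (hε : 0 < ε) (_hr : 0 < r) {K : ℕ} (hK : r ≤ 2 ^ K / ε) :
    min (1 / r ^ 2) (ε ^ 2) ≤ ∑ k ∈ Finset.range (K + 1), if r ≤ 2 ^ k / ε then 4 * ε ^ 2 / 4 ^ k else 0 := by
  classical
  have hex : ∃ k : ℕ, r ≤ 2 ^ k / ε := ⟨K, hK⟩
  have hspec := Nat.find_spec hex
  have hle : Nat.find hex ≤ K := Nat.find_min' hex hK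
  obtain ⟨k, hk⟩ : ∃ k : ℕ, k = Nat.find hex := ⟨_, rfl⟩
  rw [← hk] at hspec hle
  have h1 : (if r ≤ 2 ^ k / ε then 4 * ε ^ 2 / 4 ^ k else 0) ≤
      ∑ k ∈ Finset.range (K + 1), if r ≤ 2 ^ k / ε then 4 * ε ^ 2 / 4 ^ k else 0 := by
    apply Finset.single_le_sum (f := fun k : ℕ => if r ≤ 2 ^ k / ε then 4 * ε ^ 2 / 4 ^ k else 0)
    · intro j _
      split_ifs <;> positivity
    · rw [Finset.mem_range]
      omega
  refine le_trans ?_ h1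
  rw [if_pos hspec]
  rcases Nat.eq_zero_or_pos k with h0 | h0
  · rw [h0, pow_zero, div_one]
    refine (min_le_right _ _).trans ?_
    nlinarith [sq_nonneg ε]
  · refine (min_le_left _ _).trans ?_
    obtain ⟨j, rfl⟩ : ∃ j, k = j + 1 := ⟨k - 1, by omega⟩
    have hnot : ¬ r ≤ 2 ^ j / ε := by
      apply Nat.find_min hex
      omega
    push Not at hnot
    have h2 : (2 ^ j / ε) ^ 2 < r ^ 2 := by
      have : 0 < 2 ^ j / ε := by positivity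
      gcongr
    have h3 : 4 * ε ^ 2 / 4 ^ (j + 1) = 1 / (2 ^ j / ε) ^ 2 := by
      have : (4:ℝ) ^ (j + 1) = 4 * (2 ^ j) ^ 2 := by
        rw [pow_succ, ← pow_mul, mul_comm j 2, pow_mul]
        norm_num
        ring
      rw [this]
      field_simp
    rw [h3]
    apply one_div_le_one_div_of_le (by positivity) h2.le

lemma NT_norm {ρ : ℂ} (h : ρ.re = 1 / 2) : 1 / 2 ≤ ‖ρ‖ ∧ |ρ.im| ≤ ‖ρ‖ := by
  refine ⟨?_, Complex.abs_im_le_norm ρ⟩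
  have := Complex.abs_re_le_norm ρ
  rw [h] at this
  rwa [abs_of_pos (by norm_num)] at this

/-- the weighted sum -/
lemma sum_min {C : ℝ} (hRH : ∀ ρ ∈ NT, ρ.re = 1 / 2 ∧ deriv riemannZeta ρ ≠ 0) (hC0 : 0 ≤ C)
    (hC : ∀ T : ℝ, 1 ≤ T → ∀ Z : Finset ℂ, (∀ ρ ∈ Z, ρ ∈ NT ∧ |ρ.im| ≤ T) →
      ∑ ρ ∈ Z, 1 / ‖deriv riemannZeta ρ‖ ^ 2 ≤ C * T) {ε : ℝ} (hε : 0 < ε) (hε2 : ε ≤ 2)
    (Z : Finset ℂ) (hZ : ∀ ρ ∈ Z, ρ ∈ NT) :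
    ∑ ρ ∈ Z, min (1 / ‖ρ‖ ^ 2) (ε ^ 2) * (1 / ‖deriv riemannZeta ρ‖ ^ 2) ≤ 16 * C * ε := by
  classical
  -- a common bound for the exponents
  obtain ⟨K, hK⟩ : ∃ K : ℕ, ∀ ρ ∈ Z, ‖ρ‖ ≤ 2 ^ K / ε := by
    obtain ⟨B, hB⟩ : ∃ B : ℝ, B = ∑ ρ ∈ Z, ‖ρ‖ := ⟨_, rfl⟩
    obtain ⟨K, hK⟩ := pow_unbounded_of_one_lt (B * ε) (one_lt_two : (1:ℝ) < 2)
    refine ⟨K, fun ρ hρ => ?_⟩
    have h1 : ‖ρ‖ ≤ B := by
      rw [hB]
      exact Finset.single_le_sum (f := fun ρ : ℂ => ‖ρ‖) (fun _ _ => norm_nonneg _) hρ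
    rw [le_div_iff₀ hε]
    calc ‖ρ‖ * ε ≤ B * ε := by gcongr
      _ ≤ 2 ^ K := hK.le
  have h1 : ∀ ρ ∈ Z, min (1 / ‖ρ‖ ^ 2) (ε ^ 2) * (1 / ‖deriv riemannZeta ρ‖ ^ 2) ≤
      ∑ k ∈ Finset.range (K + 1), (4 * ε ^ 2 / 4 ^ k) *
        (if ‖ρ‖ ≤ 2 ^ k / ε then 1 / ‖deriv riemannZeta ρ‖ ^ 2 else 0) := by
    intro ρ hρ
    have hn := NT_norm (hRH ρ (hZ ρ hρ)).1
    have h2 := dyadic hε (show 0 < ‖ρ‖ by linarith) (hK ρ hρ)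
    have h3 : 0 ≤ 1 / ‖deriv riemannZeta ρ‖ ^ 2 := by positivity
    refine (mul_le_mul_of_nonneg_right h2 h3).trans (le_of_eq ?_)
    rw [Finset.sum_mul]
    refine Finset.sum_congr rfl fun k _ => ?_
    split_ifs <;> ring
  refine (Finset.sum_le_sum h1).trans ?_
  rw [Finset.sum_comm]
  have h2 : ∀ k ∈ Finset.range (K + 1), ∑ ρ ∈ Z, (4 * ε ^ 2 / 4 ^ k) *
        (if ‖ρ‖ ≤ 2 ^ k / ε then 1 / ‖deriv riemannZeta ρ‖ ^ 2 else 0) ≤ 8 * C * ε * (1 / 2) ^ k := by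
    intro k _
    rw [← Finset.mul_sum, ← Finset.sum_filter]
    have h3 : ∑ ρ ∈ Z.filter (fun ρ => ‖ρ‖ ≤ 2 ^ k / ε), 1 / ‖deriv riemannZeta ρ‖ ^ 2 ≤ C * (2 * (2 ^ k / ε)) := by
      apply hC
      · have : (1:ℝ) ≤ 2 ^ k := one_le_pow₀ one_le_two
        rw [mul_div_assoc', le_div_iff₀ hε]
        linarith
      · intro ρ hρ
        rw [Finset.mem_filter] at hρ
        have hn := NT_norm (hRH ρ (hZ ρ hρ.1)).1
        refine ⟨hZ ρ hρ.1, ?_⟩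
        have : 0 ≤ 2 ^ k / ε := by positivity
        linarith [hn.2, hρ.2]
    calc 4 * ε ^ 2 / 4 ^ k * ∑ ρ ∈ Z.filter (fun ρ => ‖ρ‖ ≤ 2 ^ k / ε), 1 / ‖deriv riemannZeta ρ‖ ^ 2 ≤
        4 * ε ^ 2 / 4 ^ k * (C * (2 * (2 ^ k / ε))) := by gcongr
      _ = 8 * C * ε * (1 / 2) ^ k := by
        have h4 : (4:ℝ) ^ k = 2 ^ k * 2 ^ k := by
          rw [← mul_pow]
          norm_num
        rw [h4, one_div, inv_pow]
        field_simp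
        ring
  refine (Finset.sum_le_sum h2).trans ?_
  rw [← Finset.mul_sum]
  have h3 : ∑ k ∈ Finset.range (K + 1), (1 / 2 : ℝ) ^ k ≤ 2 := by
    have := (summable_geometric_of_lt_one (by norm_num : (0:ℝ) ≤ 1 / 2) (by norm_num)).sum_le_tsum
      (Finset.range (K + 1)) (fun k _ => by positivity)
    rwa [tsum_geometric_two] at this
  have h4 : 0 ≤ 8 * C * ε := by positivity
  nlinarith

lemma GH_ZC (h : GH) : ZC := by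
  obtain ⟨hRH, C, hC0, hC⟩ := h
  refine ⟨hRH, ?_⟩
  apply summable_of_sum_le (c := 4 * (16 * C * 1))
  · intro ρ
    positivity
  · intro u
    have h1 := sum_min hRH hC0 hC one_pos (by norm_num) (u.map (Function.Embedding.subtype _)) (by
      intro ρ hρ
      rw [Finset.mem_map] at hρ
      obtain ⟨ρ', -, rfl⟩ := hρ
      exact ρ'.2)
    rw [Finset.sum_map] at h1
    refine le_trans ?_ (mul_le_mul_of_nonneg_left h1 (by norm_num : (0:ℝ) ≤ 4))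
    rw [Finset.mul_sum]
    refine Finset.sum_le_sum fun ρ _ => ?_
    show 1 / ‖(ρ : ℂ) * deriv riemannZeta ρ‖ ^ 2 ≤
      4 * (min (1 / ‖(ρ : ℂ)‖ ^ 2) (1 ^ 2) * (1 / ‖deriv riemannZeta (ρ : ℂ)‖ ^ 2))
    have hn := (NT_norm (hRH ρ ρ.2).1).1
    have hn0 : 0 < ‖(ρ : ℂ)‖ := by linarith
    have h2 : 1 / ‖(ρ : ℂ)‖ ^ 2 ≤ 4 * min (1 / ‖(ρ : ℂ)‖ ^ 2) (1 ^ 2) := by
      have h3 : 1 / ‖(ρ : ℂ)‖ ^ 2 ≤ 4 := by
        rw [div_le_iff₀ (by positivity)]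
        nlinarith
      rcases min_choice (1 / ‖(ρ : ℂ)‖ ^ 2) ((1:ℝ) ^ 2) with h4 | h4
      · rw [h4]
        have : 0 ≤ 1 / ‖(ρ : ℂ)‖ ^ 2 := by positivity
        linarith
      · rw [h4]
        linarith
    rw [norm_mul, mul_pow, ← one_div_mul_one_div]
    have h5 : 0 ≤ 1 / ‖deriv riemannZeta (ρ : ℂ)‖ ^ 2 := by positivity
    nlinarith [mul_le_mul_of_nonneg_right h2 h5]

lemma mB_le {L : ℝ} (hL : 0 < L) {ρ : ℂ} (hρ : ρ.re = 1 / 2) :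
    ‖mB L ρ‖ ^ 2 / ‖ρ‖ ^ 2 ≤ 4 * min (1 / ‖ρ‖ ^ 2) (L ^ 2) := by
  have hn0 : 0 < ‖ρ‖ := by linarith [(NT_norm hρ).1]
  have h1 : ‖mB L ρ‖ ≤ 2 := by
    unfold mB
    refine (norm_sub_le _ _).trans ?_
    rw [norm_one, Complex.norm_exp]
    have : Real.exp (-(↑L * ρ)).re ≤ 1 := by
      rw [Real.exp_le_one_iff, Complex.neg_re, Complex.re_ofReal_mul, hρ]
      linarith
    linarith
  have h2 : ‖mB L ρ‖ ≤ 2 * (L * ‖ρ‖) := by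
    rcases le_or_gt (L * ‖ρ‖) 1 with h | h
    · have h3 := Complex.norm_exp_sub_one_le (x := -(↑L * ρ)) (by
        rw [norm_neg, norm_mul, Complex.norm_real, Real.norm_of_nonneg hL.le]
        exact h)
      rw [norm_neg, norm_mul (L : ℂ), Complex.norm_real, Real.norm_of_nonneg hL.le] at h3
      unfold mB
      rw [norm_sub_rev]
      exact h3
    · linarith
  have h0 := norm_nonneg (mB L ρ)
  rw [mul_min_of_nonneg _ _ (by norm_num : (0:ℝ) ≤ 4), le_min_iff]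
  constructor
  · rw [mul_one_div]
    gcongr
    nlinarith
  · rw [div_le_iff₀ (by positivity)]
    have : ‖mB L ρ‖ ^ 2 ≤ (2 * (L * ‖ρ‖)) ^ 2 := by gcongr
    nlinarith

/-- `GH` bounds the sums uniformly -/
theorem GH_SM (h : GH) : ∃ C : ℝ, 0 ≤ C ∧ ∀ L : ℝ, 0 < L → L ≤ 2 → SM (mB L) ≤ C * L := by
  obtain ⟨hRH, C, hC0, hC⟩ := h
  refine ⟨64 * C, by positivity, fun L hL hL2 => ?_⟩
  unfold SM
  apply Real.tsum_le_of_sum_le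
  · intro ρ
    positivity
  · intro u
    have h1 := sum_min hRH hC0 hC hL hL2 (u.map (Function.Embedding.subtype _)) (by
      intro ρ hρ
      rw [Finset.mem_map] at hρ
      obtain ⟨ρ', -, rfl⟩ := hρ
      exact ρ'.2)
    rw [Finset.sum_map] at h1
    have h2 : ∑ ρ ∈ u, ‖mB L ρ‖ ^ 2 / ‖(ρ : ℂ) * deriv riemannZeta ρ‖ ^ 2 ≤
        4 * ∑ ρ ∈ u, min (1 / ‖(ρ : ℂ)‖ ^ 2) (L ^ 2) * (1 / ‖deriv riemannZeta (ρ : ℂ)‖ ^ 2) := by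
      rw [Finset.mul_sum]
      refine Finset.sum_le_sum fun ρ _ => ?_
      have h3 := mB_le hL (hRH ρ ρ.2).1
      have h4 : 0 ≤ 1 / ‖deriv riemannZeta (ρ : ℂ)‖ ^ 2 := by positivity
      have h5 := mul_le_mul_of_nonneg_right h3 h4
      rw [norm_mul (ρ : ℂ), mul_pow]
      calc ‖mB L ρ‖ ^ 2 / (‖(ρ : ℂ)‖ ^ 2 * ‖deriv riemannZeta (ρ : ℂ)‖ ^ 2) =
          ‖mB L ρ‖ ^ 2 / ‖(ρ : ℂ)‖ ^ 2 * (1 / ‖deriv riemannZeta (ρ : ℂ)‖ ^ 2) := by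
            rw [div_mul_div_comm, mul_one]
        _ ≤ _ := h5
        _ = _ := by ring
    refine h2.trans ?_
    have h6 : 4 * (16 * C * L) = 64 * C * L := by ring
    rw [← h6]
    gcongr
    exact h1

/-- conversely -/
theorem SM_GH (hZ : ZC) (hop : ∀ L : ℝ, 0 < L → Summable (fun ρ : NT => ‖mB L ρ‖ ^ 2 /
    ‖(ρ : ℂ) * deriv riemannZeta ρ‖ ^ 2)) {C : ℝ} (hC0 : 0 ≤ C)
    (h : ∀ L : ℝ, 0 < L → L ≤ 1 / 2 → SM (mB L) ≤ C * L) : GH := by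
  classical
  refine ⟨hZ.1, 32 * C, by positivity, fun T hT Z hZN => ?_⟩
  obtain ⟨L, hLdef⟩ : ∃ L : ℝ, L = 1 / (2 * T) := ⟨_, rfl⟩
  have hT0 : 0 < T := by linarith
  have hL : 0 < L := by rw [hLdef]; positivity
  have hLT : L * T = 1 / 2 := by rw [hLdef]; field_simp
  have hL2 : L ≤ 1 / 2 := by nlinarith
  have h1 : ∀ ρ ∈ Z, L ^ 2 / 16 * (1 / ‖deriv riemannZeta ρ‖ ^ 2) ≤
      ‖mB L ρ‖ ^ 2 / ‖ρ * deriv riemannZeta ρ‖ ^ 2 := by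
    intro ρ hρ
    obtain ⟨hN, him⟩ := hZN ρ hρ
    obtain ⟨hre, hd⟩ := hZ.1 ρ hN
    have hn0 : 0 < ‖ρ‖ := by linarith [(NT_norm hre).1]
    have hd0 : 0 < ‖deriv riemannZeta ρ‖ := norm_pos_iff.2 hd
    have hn : ‖ρ‖ ≤ 1 / 2 + T := by
      have := Complex.norm_le_abs_re_add_abs_im ρ
      rw [hre, abs_of_pos (by norm_num : (0:ℝ) < 1 / 2)] at this
      linarith
    have hx : L * ‖ρ‖ ≤ 3 / 4 := by nlinarith
    have hz : ‖-((L : ℂ) * ρ)‖ = L * ‖ρ‖ := by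
      rw [norm_neg, norm_mul, Complex.norm_real, Real.norm_of_nonneg hL.le]
    have h2 := Complex.norm_exp_sub_one_sub_id_le (x := -((L : ℂ) * ρ)) (by rw [hz]; linarith)
    rw [hz] at h2
    have h3 : L * ‖ρ‖ / 4 ≤ ‖mB L ρ‖ := by
      have e1 : -((L : ℂ) * ρ) = (Complex.exp (-((L : ℂ) * ρ)) - 1) -
          (Complex.exp (-((L : ℂ) * ρ)) - 1 - -((L : ℂ) * ρ)) := by ring
      have h4 := norm_sub_le (Complex.exp (-((L : ℂ) * ρ)) - 1)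
        (Complex.exp (-((L : ℂ) * ρ)) - 1 - -((L : ℂ) * ρ))
      rw [← e1, hz] at h4
      have h5 : ‖mB L ρ‖ = ‖Complex.exp (-((L : ℂ) * ρ)) - 1‖ := by
        unfold mB
        rw [norm_sub_rev]
      rw [h5]
      have h6 : 0 < L * ‖ρ‖ := by positivity
      nlinarith
    rw [norm_mul, mul_pow]
    have h7 : (L * ‖ρ‖ / 4) ^ 2 ≤ ‖mB L ρ‖ ^ 2 := by
      have : 0 ≤ L * ‖ρ‖ / 4 := by positivity
      gcongr
    calc L ^ 2 / 16 * (1 / ‖deriv riemannZeta ρ‖ ^ 2) =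
        (L * ‖ρ‖ / 4) ^ 2 / (‖ρ‖ ^ 2 * ‖deriv riemannZeta ρ‖ ^ 2) := by
          field_simp
          ring
      _ ≤ _ := by gcongr
  have h2 : ∑ ρ ∈ Z, ‖mB L ρ‖ ^ 2 / ‖ρ * deriv riemannZeta ρ‖ ^ 2 ≤ SM (mB L) := by
    have h3 : ∑ ρ ∈ Z, ‖mB L ρ‖ ^ 2 / ‖ρ * deriv riemannZeta ρ‖ ^ 2 =
        ∑ ρ ∈ Z.subtype (· ∈ NT), ‖mB L (ρ : ℂ)‖ ^ 2 / ‖(ρ : ℂ) * deriv riemannZeta (ρ : ℂ)‖ ^ 2 := by
      rw [Finset.sum_subtype_of_mem (fun ρ : ℂ => ‖mB L ρ‖ ^ 2 / ‖ρ * deriv riemannZeta ρ‖ ^ 2)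
        (fun ρ hρ => (hZN ρ hρ).1)]
    rw [h3]
    exact (hop L hL).sum_le_tsum _ fun ρ _ => by positivity
  have h3 := (Finset.sum_le_sum h1).trans (h2.trans (h L hL hL2))
  rw [← Finset.mul_sum] at h3
  obtain ⟨A, hA⟩ : ∃ A : ℝ, A = ∑ ρ ∈ Z, 1 / ‖deriv riemannZeta ρ‖ ^ 2 := ⟨_, rfl⟩
  rw [← hA] at h3 ⊢
  -- `L² A / 16 ≤ C L`, so `A ≤ 16 C / L = 32 C T`
  have h4 : L * (L * A / 16) ≤ L * C := by nlinarith
  have h5 : L * A / 16 ≤ C := le_of_mul_le_mul_left h4 hL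
  have h6 : A = 2 * T * (L * A) := by
    have : 2 * T * (L * A) = 2 * (L * T) * A := by ring
    rw [this, hLT]
    ring
  rw [h6]
  nlinarith

end Pool.Agent.R613.WM
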